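import Pool.Agent.H984Q.Rate
import Pool.Agent.H31C.Main

/-!
Almost sure behaviour of the exploration path at the tip of a slit.
Base: the exit event is, almost surely, an increasing crossing event of the slit plane; restriction
of a configuration to a set of edges, independence.
-/

namespace Pool.Agent.N931.AS

open Pool.Agent.H988R2.Perc hiding X
open Pool.Agent.H31C Pool.Agent.H492E Pool.Agent.H984Q Finset MeasureTheory

/-! ## the crossing event in plane coordinates -/

/-- open edges of the slit strip `-a ≤ u - v ≤ b + 1` -/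
def SA (a b : ℕ) (ω : Conf) (x y : ℤ × ℤ) : Prop :=
  OpenAdj ω x y ∧ -(a : ℤ) ≤ x.1 - x.2 ∧ x.1 - x.2 ≤ b + 1 ∧ -(a : ℤ) ≤ y.1 - y.2 ∧
    y.1 - y.2 ≤ b + 1 ∧ ¬ Cut x y

/-- the left bank is joined to the column `b+1` -/
def CR (a b : ℕ) : Set Conf :=
  {ω | ∃ x y : ℤ × ℤ, x.1 = x.2 ∧ 0 ≤ x.1 ∧ y.1 - y.2 = (b : ℤ) + 1 ∧
    Relation.ReflTransGen (SA a b ω) x y}

theorem slit_iff (k b : ℕ) (ω : Conf) (x y : ℤ × ℤ) :
    SlitAdj (2 * k + 1) (2 * k + 1 + b + 1) ω (x.1 + (k + 1), x.2 - k) (y.1 + (k + 1), y.2 - k) ↔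
      SA (2 * k + 1) b (tr k ω) x y := by
  unfold SlitAdj SA
  rw [open_tr]
  unfold Cut
  constructor
  · rintro ⟨h3, h4, h5, h6, h7, h8⟩
    simp only at h4 h5 h6 h7 h8
    push_cast at h4 h5 h6 h7 h8 ⊢
    refine ⟨h3, by omega, by omega, by omega, by omega, fun h9 => h8 ?_⟩
    omega
  · rintro ⟨h3, h4, h5, h6, h7, h8⟩
    simp only
    push_cast at h4 h5 h6 h7 h8 ⊢
    refine ⟨h3, by omega, by omega, by omega, by omega, fun h9 => h8 ?_⟩
    omega

theorem cross_iff (k b : ℕ) (ω : Conf) :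
    ω ∈ Cross (2 * k + 1) b ↔ tr k ω ∈ CR (2 * k + 1) b := by
  constructor
  · rintro ⟨x, y, h1, h2, h3, h4⟩
    refine ⟨(x.1 - (k + 1), x.2 + k), (y.1 - (k + 1), y.2 + k), ?_, ?_, ?_, ?_⟩
    · simp only
      push_cast at h1; omega
    · simp only
      push_cast at h1; omega
    · simp only
      push_cast at h3; omega
    · refine h4.lift (fun z : ℤ × ℤ => (z.1 - ((k : ℤ) + 1), z.2 + (k : ℤ))) fun p q hpq => ?_
      apply (slit_iff k b ω (p.1 - ((k : ℤ) + 1), p.2 + (k : ℤ)) (q.1 - ((k : ℤ) + 1), q.2 + (k : ℤ))).1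
      simpa using hpq
  · rintro ⟨x, y, h1, h2, h3, h4⟩
    refine ⟨(x.1 + (k + 1), x.2 - k), (y.1 + (k + 1), y.2 - k), ?_, ?_, ?_, ?_⟩
    · simp only
      push_cast; omega
    · simp only
      push_cast; omega
    · simp only
      push_cast; omega
    · refine h4.lift (fun z : ℤ × ℤ => (z.1 + ((k : ℤ) + 1), z.2 - (k : ℤ))) fun p q hpq => ?_
      exact (slit_iff k b ω p q).2 hpq

theorem sa_meas (a b : ℕ) (x y : ℤ × ℤ) : MeasurableSet {ω : Conf | SA a b ω x y} :=
  (m_open x y).inter (MeasurableSet.const _)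

/-- measurability of connection events -/
theorem conn_meas {r : Conf → ℤ × ℤ → ℤ × ℤ → Prop}
    (hr : ∀ x y, MeasurableSet {ω : Conf | r ω x y}) (x y : ℤ × ℤ) :
    MeasurableSet {ω : Conf | Relation.ReflTransGen (r ω) x y} := by
  let P : ℕ → (ℤ × ℤ) → Set Conf := fun n => Nat.rec (fun y => {_ω | x = y})
    (fun _ Q y => ⋃ z : ℤ × ℤ, Q z ∩ {ω | r ω z y}) n
  have hP : ∀ n y, MeasurableSet (P n y) := by
    intro n
    induction n with
    | zero => intro y; exact MeasurableSet.const _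
    | succ n ih => intro y; exact MeasurableSet.iUnion fun z => (ih z).inter (hr z y)
  have h : {ω : Conf | Relation.ReflTransGen (r ω) x y} = ⋃ n, P n y := by
    ext ω
    rw [Set.mem_iUnion]
    constructor
    · intro h
      have h' : Relation.ReflTransGen (r ω) x y := h
      induction h' with
      | refl => exact ⟨0, rfl⟩
      | tail h1 h2 ih =>
        obtain ⟨n, hn⟩ := ih h1
        exact ⟨n + 1, Set.mem_iUnion.2 ⟨_, hn, h2⟩⟩
    · rintro ⟨n, hn⟩
      show Relation.ReflTransGen (r ω) x y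
      induction n generalizing y with
      | zero =>
        have : x = y := hn
        rw [this]
      | succ n ih =>
        obtain ⟨z, hz, hzy⟩ := Set.mem_iUnion.1 hn
        exact (ih z hz).tail hzy
  rw [h]
  exact MeasurableSet.iUnion fun n => hP n y

theorem cr_meas (a b : ℕ) : MeasurableSet (CR a b) := by
  have h : CR a b = ⋃ x : ℤ × ℤ, ⋃ y : ℤ × ℤ, {_ω | x.1 = x.2 ∧ 0 ≤ x.1 ∧
      y.1 - y.2 = (b : ℤ) + 1} ∩ {ω | Relation.ReflTransGen (SA a b ω) x y} := by
    ext ω
    simp only [CR, Set.mem_iUnion, Set.mem_inter_iff, Set.mem_ofPred_eq, and_assoc]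
  rw [h]
  exact MeasurableSet.iUnion fun x => MeasurableSet.iUnion fun y =>
    (MeasurableSet.const _).inter (conn_meas (sa_meas a b) x y)

/-- the translation as a map of `Conf`, surjective on configurations -/
theorem tr_surj (k : ℤ) (ω : Conf) : ∃ ω', tr k ω' = ω := by
  refine ⟨fun e => ω (e.1 - (k + 1), e.2.1 + k, e.2.2), ?_⟩
  funext e
  obtain ⟨u, v, c⟩ := e
  show ω (u + (k + 1) - (k + 1), v - k + k, c) = ω (u, v, c)
  rw [show u + (k + 1) - (k + 1) = u by ring, show v - k + k = v by ring]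

theorem right_sub_cr {a b : ℕ} (ha : Odd a) (hb : Odd b) : RightFirst a b ⊆ CR a b := by
  intro ω hω
  obtain ⟨k, rfl⟩ := ha
  obtain ⟨ω', rfl⟩ := tr_surj k ω
  exact (cross_iff k b ω').1 (right_sub k b hb ω' hω)

theorem cr_prob {a b : ℕ} (ha : Odd a) (hb : Odd b) :
    perc.real (CR a b) = perc.real (RightFirst a b) := by
  rw [(exact_all exact_cardy a b ha hb).1, ← exact_cardy a b ha hb]
  obtain ⟨k, rfl⟩ := ha
  have h : Cross (2 * k + 1) b = {ω | tr k ω ∈ CR (2 * k + 1) b} := by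
    ext ω; exact cross_iff k b ω
  rw [h, measureReal_def, measureReal_def, perc_tr]

/-- the exit event is almost surely the crossing event -/
theorem right_ae {a b : ℕ} (ha : Odd a) (hb : Odd b) :
    RightFirst a b =ᵐ[perc] CR a b := by
  refine ae_eq_of_subset_of_measure_ge (right_sub_cr ha hb) ?_ (m_events a b).1.nullMeasurableSet
    (measure_ne_top _ _)
  have h := cr_prob ha hb
  rw [measureReal_def, measureReal_def] at h
  exact ((ENNReal.toReal_eq_toReal_iff' (measure_ne_top _ _) (measure_ne_top _ _)).1 h).le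

end Pool.Agent.N931.AS
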