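import Mathlib
import Pool.Agent.H988R2.Perc.Defs

/-!
Restriction of a percolation configuration to a set of edges; independence; a zero-one law.
-/

namespace Pool.Agent.N931.AS

open Pool.Agent.H988R2.Perc hiding X
open Finset MeasureTheory ProbabilityTheory

open Classical in
/-- the configuration with all edges outside `S` closed -/
noncomputable def res (S : Set Edge) (ω : Conf) : Conf := fun e => if e ∈ S then ω e else false

theorem res_of {S : Set Edge} {ω : Conf} {e : Edge} (h : e ∈ S) : res S ω e = ω e := by
  unfold res; rw [if_pos h]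

theorem res_not {S : Set Edge} {ω : Conf} {e : Edge} (h : e ∉ S) : res S ω e = false := by
  unfold res; rw [if_neg h]

theorem res_le {S : Set Edge} {ω : Conf} {e : Edge} (h : res S ω e = true) : ω e = true := by
  by_cases he : e ∈ S
  · rwa [res_of he] at h
  · rw [res_not he] at h; exact absurd h (by decide)

theorem res_true {S : Set Edge} {ω : Conf} {e : Edge} :
    res S ω e = true ↔ e ∈ S ∧ ω e = true := by
  by_cases he : e ∈ S
  · rw [res_of he]; simp [he]
  · rw [res_not he]; simp [he]

theorem res_res {S T : Set Edge} (h : S ⊆ T) (ω : Conf) : res S (res T ω) = res S ω := by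
  funext e
  by_cases he : e ∈ S
  · rw [res_of he, res_of he, res_of (h he)]
  · rw [res_not he, res_not he]

/-- the σ-algebra of the edges of `S` -/
@[reducible] def sig (S : Set Edge) : MeasurableSpace Conf :=
  ⨆ e ∈ S, MeasurableSpace.comap (fun ω : Conf => ω e) inferInstance

theorem sig_le (S : Set Edge) : sig S ≤ (inferInstance : MeasurableSpace Conf) :=
  iSup₂_le fun e _ => (measurable_pi_apply e).comap_le

theorem res_meas' (S : Set Edge) : Measurable[sig S] (res S) := by
  refine @measurable_pi_lambda Conf Edge (fun _ => Bool) (sig S) _ (res S) fun e => ?_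
  by_cases he : e ∈ S
  · have h1 : (fun ω : Conf => res S ω e) = fun ω => ω e := by
      funext ω; exact res_of he
    rw [h1]
    have h2 : MeasurableSpace.comap (fun ω : Conf => ω e) inferInstance ≤ sig S :=
      le_iSup₂ (f := fun (e : Edge) (_ : e ∈ S) =>
        MeasurableSpace.comap (fun ω : Conf => ω e) inferInstance) e he
    exact (comap_measurable (fun ω : Conf => ω e)).mono h2 le_rfl
  · have h1 : (fun ω : Conf => res S ω e) = fun _ => false := by
      funext ω; exact res_not he
    rw [h1]
    exact measurable_const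

theorem res_meas (S : Set Edge) : Measurable (res S) := (res_meas' S).mono (sig_le S) le_rfl

theorem indep_sig {S T : Set Edge} (h : Disjoint S T) : Indep (sig S) (sig T) perc := by
  have h1 : iIndepFun (fun (e : Edge) (ω : Conf) => ω e) perc :=
    iIndepFun_infinitePi (P := fun _ : Edge => coin) (X := fun _ b => b) (fun _ => measurable_id)
  exact indep_iSup_of_disjoint (fun e => (measurable_pi_apply e).comap_le) h1.iIndep h

theorem res_indep {S T : Set Edge} (h : Disjoint S T) {A B : Set Conf} (hA : MeasurableSet A)
    (hB : MeasurableSet B) : perc.real (res S ⁻¹' A ∩ res T ⁻¹' B) =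
      perc.real (res S ⁻¹' A) * perc.real (res T ⁻¹' B) := by
  have h1 := (Indep_iff _ _ _).1 (indep_sig h) _ _ (res_meas' S hA) (res_meas' T hB)
  rw [measureReal_def, h1, ENNReal.toReal_mul]
  rfl

/-- Zero-one law: an event which, almost surely, does not depend on any finite set of edges. -/
theorem zero_one {Ed : ℕ → Set Edge} (hm : Monotone Ed) (hc : ∀ e, ∃ n, e ∈ Ed n)
    {A : Set Conf}
    (h : ∀ n, ∃ B, MeasurableSet B ∧ A =ᵐ[perc] res (Ed n)ᶜ ⁻¹' B) :
    perc A = 0 ∨ perc A = 1 := by
  let C : Set (Set Conf) := {D | ∃ n, ∃ D', MeasurableSet D' ∧ D = res (Ed n) ⁻¹' D'}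
  have hpi : IsPiSystem C := by
    rintro D ⟨n, D', hD', rfl⟩ E ⟨m, E', hE', rfl⟩ -
    refine ⟨max n m, res (Ed n) ⁻¹' D' ∩ res (Ed m) ⁻¹' E',
      (res_meas _ hD').inter (res_meas _ hE'), ?_⟩
    ext ω
    simp only [Set.mem_inter_iff, Set.mem_preimage]
    rw [res_res (hm (le_max_left n m)), res_res (hm (le_max_right n m))]
  have hgen : (inferInstance : MeasurableSpace Conf) = MeasurableSpace.generateFrom C := by
    apply le_antisymm
    · refine iSup_le fun e => ?_
      rintro _ ⟨s, hs, rfl⟩
      obtain ⟨n, hn⟩ := hc e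
      apply MeasurableSpace.measurableSet_generateFrom
      refine ⟨n, (fun ω : Conf => ω e) ⁻¹' s, measurable_pi_apply e hs, ?_⟩
      ext ω
      simp only [Set.mem_preimage]
      rw [res_of hn]
    · apply MeasurableSpace.generateFrom_le
      rintro D ⟨n, D', hD', rfl⟩
      exact res_meas _ hD'
  have key : perc.restrict A = perc A • perc := by
    refine ext_of_generate_finite C hgen hpi ?_ ?_
    · rintro D ⟨n, D', hD', rfl⟩
      obtain ⟨B, hB, hAB⟩ := h n
      rw [Measure.restrict_apply (res_meas _ hD'), Measure.smul_apply, smul_eq_mul,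
        measure_congr hAB]
      have e1 : (res (Ed n) ⁻¹' D' ∩ A : Set Conf) =ᵐ[perc]
          (res (Ed n) ⁻¹' D' ∩ res (Ed n)ᶜ ⁻¹' B : Set Conf) :=
        (Filter.EventuallyEq.refl _ _).inter hAB
      rw [measure_congr e1, (Indep_iff _ _ _).1 (indep_sig (disjoint_compl_right (a := Ed n))) _ _
        (res_meas' _ hD') (res_meas' _ hB), mul_comm]
    · rw [Measure.restrict_apply_univ, Measure.smul_apply, smul_eq_mul, measure_univ, mul_one]
  have h2 : perc A = perc A * perc A := by
    have h3 : perc.restrict A A = (perc A • perc) A := by rw [key]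
    rwa [Measure.restrict_apply_self, Measure.smul_apply, smul_eq_mul] at h3
  have h4 : perc A ≠ ⊤ := measure_ne_top _ _
  by_cases h0 : perc A = 0
  · exact Or.inl h0
  · right
    have h5 : perc A * 1 = perc A * perc A := by rw [mul_one]; exact h2
    exact ((ENNReal.mul_right_inj h0 h4).1 h5).symm

end Pool.Agent.N931.AS
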