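import Pool.Agent.Y989.SD.Main
import Pool.Agent.N931.AS.Base
import Pool.Agent.N931.AS.Indep

/-!
Arm events for the infinite product measure: full plane and half-plane bounded by a diagonal line.
-/

namespace Pool.Agent.N931.AS

open Pool.Agent.H988R2.Perc hiding X
open Pool.Agent.H31C Pool.Agent.H492E Pool.Agent.H984Q Finset MeasureTheory

/-- the box of radius `n` around `v` -/
def bx (v : ℤ × ℤ) (n : ℤ) (y : ℤ × ℤ) : Prop :=
  (v.1 - n ≤ y.1 ∧ y.1 ≤ v.1 + n) ∧ (v.2 - n ≤ y.2 ∧ y.2 ≤ v.2 + n)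

/-- open steps in the region `H` -/
def OH (H : ℤ × ℤ → Prop) (ω : Conf) (x y : ℤ × ℤ) : Prop := OpenAdj ω x y ∧ H x ∧ H y

/-- an open path in `H` from the box of radius `r` around `v` to the outside of the box of radius
`R - 1` -/
def AR (H : ℤ × ℤ → Prop) (v : ℤ × ℤ) (r R : ℤ) : Set Conf :=
  {ω | ∃ u w, bx v r u ∧ ¬ bx v (R - 1) w ∧ H u ∧ Relation.ReflTransGen (OH H ω) u w}

theorem openAdj_symm {ω : Conf} {x y : ℤ × ℤ} (h : OpenAdj ω x y) : OpenAdj ω y x := by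
  rcases h with h | h | h | h
  · exact Or.inr (Or.inl h)
  · exact Or.inl h
  · exact Or.inr (Or.inr (Or.inr h))
  · exact Or.inr (Or.inr (Or.inl h))

theorem openAdj_near {ω : Conf} {x y : ℤ × ℤ} (h : OpenAdj ω x y) :
    (x.1 - 1 ≤ y.1 ∧ y.1 ≤ x.1 + 1) ∧ (x.2 - 1 ≤ y.2 ∧ y.2 ≤ x.2 + 1) := by
  rcases h with ⟨h, -⟩ | ⟨h, -⟩ | ⟨h, -⟩ | ⟨h, -⟩
  · rw [h]; simp only; omega
  · rw [h]; simp only; omega
  · rw [h]; simp only; omega
  · rw [h]; simp only; omega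

/-- columns and heights change by one, together -/
theorem openAdj_col {ω : Conf} {x y : ℤ × ℤ} (h : OpenAdj ω x y) :
    ((y.1 - y.2 = x.1 - x.2 + 1) ∨ (y.1 - y.2 = x.1 - x.2 - 1)) ∧
      ((y.1 + y.2 = x.1 + x.2 + 1) ∨ (y.1 + y.2 = x.1 + x.2 - 1)) := by
  rcases h with ⟨h, -⟩ | ⟨h, -⟩ | ⟨h, -⟩ | ⟨h, -⟩
  · rw [h]; constructor
    · left; simp only; ring
    · left; simp only; ring
  · rw [h]; constructor
    · right; simp only; ring
    · right; simp only; ring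
  · rw [h]; constructor
    · right; simp only; ring
    · left; simp only; ring
  · rw [h]; constructor
    · left; simp only; ring
    · right; simp only; ring

theorem openAdj_mono {ω ω' : Conf} (h : ∀ e, ω e = true → ω' e = true) {x y : ℤ × ℤ}
    (hx : OpenAdj ω x y) : OpenAdj ω' x y := by
  rcases hx with ⟨h1, h2⟩ | ⟨h1, h2⟩ | ⟨h1, h2⟩ | ⟨h1, h2⟩
  · exact Or.inl ⟨h1, h _ h2⟩
  · exact Or.inr (Or.inl ⟨h1, h _ h2⟩)
  · exact Or.inr (Or.inr (Or.inl ⟨h1, h _ h2⟩))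
  · exact Or.inr (Or.inr (Or.inr ⟨h1, h _ h2⟩))

theorem rtg_mono {α : Type*} {r r' : α → α → Prop} (hr : ∀ x y, r x y → r' x y) {x y : α}
    (h : Relation.ReflTransGen r x y) : Relation.ReflTransGen r' x y := by
  induction h with
  | refl => exact Relation.ReflTransGen.refl
  | tail _ h2 ih => exact ih.tail (hr _ _ h2)

theorem rtg_symm {α : Type*} {r : α → α → Prop} (hr : ∀ x y, r x y → r y x) {x y : α}
    (h : Relation.ReflTransGen r x y) : Relation.ReflTransGen r y x := by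
  induction h with
  | refl => exact Relation.ReflTransGen.refl
  | tail _ h2 ih => exact Relation.ReflTransGen.head (hr _ _ h2) ih

/-- first visit -/
theorem first_visit {α : Type*} {r r' : α → α → Prop} {P : α → Prop}
    (h : ∀ x z, r x z → ¬ P x → r' x z) {y z : α} (hyz : Relation.ReflTransGen r y z) :
    (∃ u, P u ∧ Relation.ReflTransGen r' y u) ∨ (¬ P z ∧ Relation.ReflTransGen r' y z) := by
  classical
  induction hyz with
  | refl =>
    by_cases hy : P y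
    · exact Or.inl ⟨y, hy, Relation.ReflTransGen.refl⟩
    · exact Or.inr ⟨hy, Relation.ReflTransGen.refl⟩
  | @tail b c _ hbc ih =>
    rcases ih with h1 | ⟨h1, h2⟩
    · exact Or.inl h1
    · have h3 := h2.tail (h b c hbc h1)
      by_cases hc : P c
      · exact Or.inl ⟨c, hc, h3⟩
      · exact Or.inr ⟨hc, h3⟩

theorem first_visit' {α : Type*} {r r' : α → α → Prop} {P : α → Prop}
    (h : ∀ x z, r x z → ¬ P x → r' x z) {y z : α} (hyz : Relation.ReflTransGen r y z) (hz : P z) :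
    ∃ u, P u ∧ Relation.ReflTransGen r' y u := by
  rcases first_visit h hyz with h1 | ⟨h1, -⟩
  · exact h1
  · exact absurd hz h1

theorem ar_meas (H : ℤ × ℤ → Prop) (v : ℤ × ℤ) (r R : ℤ) : MeasurableSet (AR H v r R) := by
  have h : AR H v r R = ⋃ u : ℤ × ℤ, ⋃ w : ℤ × ℤ, {_ω | bx v r u ∧ ¬ bx v (R - 1) w ∧ H u} ∩
      {ω | Relation.ReflTransGen (OH H ω) u w} := by
    ext ω
    simp only [AR, Set.mem_iUnion, Set.mem_inter_iff, Set.mem_ofPred_eq, and_assoc]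
  rw [h]
  exact MeasurableSet.iUnion fun u => MeasurableSet.iUnion fun w =>
    (MeasurableSet.const _).inter
      (conn_meas (fun x y => (m_open x y).inter (MeasurableSet.const _)) u w)

theorem ar_mono {H : ℤ × ℤ → Prop} {v : ℤ × ℤ} {r R : ℤ} {ω ω' : Conf}
    (h : ∀ e, ω e = true → ω' e = true) (hω : ω ∈ AR H v r R) : ω' ∈ AR H v r R := by
  obtain ⟨u, w, h1, h2, h3, h4⟩ := hω
  exact ⟨u, w, h1, h2, h3, rtg_mono (fun x y hxy => ⟨openAdj_mono h hxy.1, hxy.2⟩) h4⟩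

/-! ## the dictionary -/

open H974 H973 Pool.Agent.Y989.SD

theorem phi_phi (v : ℤ × ℤ) : phi 0 0 (phi 0 0 v) = v := by
  obtain ⟨x, y⟩ := v
  simp [phi]

theorem bx_phi (v : ℤ × ℤ) (n : ℤ) (y : ℤ × ℤ) : y ∈ BX (phi 0 0 v) n ↔ bx v n (phi 0 0 y) := by
  rw [mem_BX]
  unfold bx phi
  simp only
  omega

theorem ar_fin {H : ℤ × ℤ → Prop} {v : ℤ × ℤ} {r R : ℤ} (hr : r ≤ R) {T : Finset Vtx}
    (hT : ∀ y, y ∈ BX (phi 0 0 v) R → H (phi 0 0 y) → y ∈ T) {ω : Conf} (hω : ω ∈ AR H v r R) :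
    XT T (phi 0 0 v) r R (FO 0 0 (ES T) ω) := by
  obtain ⟨u, w, h1, h2, h3, h4⟩ := hω
  have hmemT : ∀ y, bx v R y → H y → phi 0 0 y ∈ T := by
    intro y hy hy'
    apply hT
    · rw [bx_phi, phi_phi]; exact hy
    · rw [phi_phi]; exact hy'
  obtain ⟨z, hz1, hz2⟩ := first_visit' (r := OH H ω)
    (r' := fun x y => OH H ω x y ∧ Adj (FO 0 0 (ES T) ω : Set Edg) (phi 0 0 x) (phi 0 0 y))
    (P := fun y => ¬ bx v (R - 1) y) (by
      intro x z hxz hx
      have hx' : bx v (R - 1) x := by by_contra hc; exact hx hc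
      refine ⟨hxz, ?_⟩
      have hn := openAdj_near hxz.1
      have hxR : bx v R x := by unfold bx at hx' ⊢; omega
      have hzR : bx v R z := by unfold bx at hx' ⊢; omega
      have k1 := hmemT x hxR hxz.2.1
      have k2 := hmemT z hzR hxz.2.2
      obtain ⟨e, he1, he2⟩ := open_adj (c := 0) (d := 0) (ω := ω) (u := phi 0 0 x)
        (v := phi 0 0 z) (by rw [phi_phi, phi_phi]; exact hxz.1)
      refine ⟨e, ?_, he2⟩
      rw [Finset.mem_coe, mem_FO]
      refine ⟨?_, he1⟩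
      rw [mem_ES]
      rcases he2 with ⟨e1, e2⟩ | ⟨e1, e2⟩
      · rw [e1, e2]; exact ⟨k1, k2⟩
      · rw [e1, e2]; exact ⟨k2, k1⟩) h4 h2
  have huT : phi 0 0 u ∈ T := hmemT u (by unfold bx at h1 ⊢; omega) h3
  have hreach : Reach (FO 0 0 (ES T) ω : Set Edg) (phi 0 0 u) (phi 0 0 z) :=
    hz2.lift (phi 0 0) fun a b hab => hab.2
  have hzT : phi 0 0 z ∈ T := by
    rcases Relation.ReflTransGen.cases_tail hreach with h | ⟨c, -, e, he, h⟩
    · rw [h]; exact huT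
    · rw [Finset.mem_coe, mem_FO, mem_ES] at he
      rcases h with ⟨e1, e2⟩ | ⟨e1, e2⟩
      · rw [← e2]; exact he.1.2
      · rw [← e1]; exact he.1.1
  refine ⟨phi 0 0 u, huT, ?_, phi 0 0 z, hzT, ?_, hreach⟩
  · rw [bx_phi, phi_phi]; exact h1
  · rw [bx_phi, phi_phi]; exact hz1

theorem ar_prob {H : ℤ × ℤ → Prop} {v : ℤ × ℤ} {r R : ℤ} (hr : r ≤ R) {T : Finset Vtx}
    (hT : ∀ y, y ∈ BX (phi 0 0 v) R → H (phi 0 0 y) → y ∈ T) :
    perc.real (AR H v r R) ≤ Pr hf (ES T) (XT T (phi 0 0 v) r R) := by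
  rw [← perc_event 0 0 (ES T) (XT T (phi 0 0 v) r R)]
  exact measureReal_mono fun ω hω => ar_fin hr hT hω

/-- one arm in the plane -/
theorem arm_plane : ∃ C β : ℝ, 0 < C ∧ 0 < β ∧ ∀ (v : ℤ × ℤ) (r R : ℤ), 1 ≤ r → r ≤ R →
    perc.real (AR (fun _ => True) v r R) ≤ C * ((r : ℝ) / R) ^ β := by
  obtain ⟨C, β, hC, hβ, h⟩ := FPA.t_FPA
  refine ⟨C, β, hC, hβ, fun v r R h1 h2 => ?_⟩
  refine (ar_prob (T := BX (phi 0 0 v) R) h2 (fun y hy _ => hy)).trans ?_
  refine le_trans ?_ (h (phi 0 0 v) r R h1 h2)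
  apply Pr_mono (okq (q := 1/2) (by norm_num) (by norm_num))
  rintro F - ⟨u, -, hu, w, hw, hw', hr⟩
  refine ⟨u, hu, w, hw, ?_, hr⟩
  unfold onBX
  rw [mem_BX] at hw hw'
  omega

/-- the half-plane bounded by the column `-a` -/
def HP (a : ℕ) (x : ℤ × ℤ) : Prop := -(a : ℤ) ≤ x.1 - x.2

/-- one arm in the half-plane -/
theorem arm_half : ∃ C : ℝ, 0 < C ∧ ∀ (a : ℕ) (r R : ℤ), 1 ≤ r → r ≤ R →
    perc.real (AR (HP a) (-(a : ℤ), 0) r R) ≤ C * ((r : ℝ) / R) ^ (1 / 3 : ℝ) := by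
  classical
  obtain ⟨c, C, hc, hC, h⟩ := m_WIN 1 1 (by norm_num)
  refine ⟨C, hC, fun a r R h1 h2 => ?_⟩
  set T : Finset Vtx := (BX (phi 0 0 (-(a : ℤ), 0)) (32 * R)).filter fun y => y.1 + y.2 ≤ a with hTd
  have hphi : phi 0 0 (-(a : ℤ), 0) = ((a : ℤ), 0) := by simp [phi]
  have hW : Pool.Agent.Y989.SD.Win T (phi 0 0 (-(a : ℤ), 0)) R 1 1 := by
    refine ⟨(0, -1), Or.inr (Or.inr (Or.inl rfl)), fun x => -x, -1, ⟨by norm_num, ?_⟩,
      by norm_num, ?_, ?_⟩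
    · intro x
      have : -(x + 1) - -x = -1 := by ring
      rw [this]; norm_num
    · intro x _
      have e1 : (((-x : ℤ) : ℝ) - (-1) * (x : ℝ)) = 0 := by push_cast; ring
      rw [e1, abs_zero]
      have h3 : (0 : ℝ) ≤ |(x : ℝ)| * (|(x : ℝ)| / (R : ℝ)) ^ (1 : ℝ) := by
        apply mul_nonneg (abs_nonneg _)
        apply Real.rpow_nonneg
        apply div_nonneg (abs_nonneg _)
        have : (1 : ℝ) ≤ R := by exact_mod_cast h1.trans h2
        linarith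
      linarith
    · intro y hy
      rw [mem_QB] at hy
      rw [hTd, Finset.mem_filter, hphi, mem_BX]
      unfold emb
      simp only
      omega
  refine (ar_prob (T := T) h2 ?_).trans (h T _ R hW r R h1 h2 le_rfl).1
  intro y hy hy'
  rw [hTd, Finset.mem_filter]
  refine ⟨?_, ?_⟩
  · rw [mem_BX] at hy ⊢
    omega
  · unfold HP phi at hy'
    simp only at hy'
    omega

end Pool.Agent.N931.AS
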