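import Mathlib

/-!
Logarithmic averages of events whose correlations decay like `(m/n)^γ` converge almost surely.
-/

namespace Pool.Agent.N931.AS

open Finset MeasureTheory ProbabilityTheory Filter Topology

/-! ## elementary sums -/

theorem sum_Icc_shift (f : ℕ → ℝ) (N : ℕ) :
    ∑ n ∈ Icc 1 N, f n = ∑ n ∈ range N, f (n + 1) := by
  induction N with
  | zero => simp
  | succ N ih => rw [Finset.sum_Icc_succ_top (by omega), ih, Finset.sum_range_succ]

/-- harmonic sums -/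
noncomputable def HN (N : ℕ) : ℝ := ∑ n ∈ range N, ((n : ℝ) + 1)⁻¹

theorem HN_eq (N : ℕ) : HN N = (harmonic N : ℝ) := by
  unfold HN harmonic
  push_cast
  rfl

theorem HN_le (N : ℕ) : HN N ≤ 1 + Real.log N := by
  rw [HN_eq]; exact harmonic_le_one_add_log N

theorem le_HN (N : ℕ) : Real.log ((N : ℝ) + 1) ≤ HN N := by
  rw [HN_eq]
  have := log_add_one_le_harmonic N
  push_cast at this
  exact this

theorem HN_diff {M N : ℕ} (hM : 1 ≤ M) :
    HN N - HN M ≤ 1 + (Real.log N - Real.log M) := by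
  have h1 := HN_le N
  have h2 := le_HN M
  have hM' : (1 : ℝ) ≤ M := by exact_mod_cast hM
  have h3 : Real.log M ≤ Real.log ((M : ℝ) + 1) := Real.log_le_log (by linarith) (by linarith)
  linarith

theorem pow_sum {γ : ℝ} (hγ : 0 < γ) (hγ1 : γ ≤ 1) (n : ℕ) :
    ∑ m ∈ range n, ((m : ℝ) + 1)⁻¹ * (((m : ℝ) + 1) / ((n : ℝ) + 1)) ^ γ ≤ 1 / γ := by
  have key : ∀ k : ℕ, ∑ m ∈ range k, ((m : ℝ) + 1)⁻¹ * ((m : ℝ) + 1) ^ γ ≤ (k : ℝ) ^ γ / γ := by
    intro k
    induction k with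
    | zero => simp [Real.zero_rpow hγ.ne']
    | succ k ih =>
      rw [Finset.sum_range_succ]
      refine (add_le_add_left ih _).trans ?_
      have hk : (0 : ℝ) ≤ k := Nat.cast_nonneg k
      have hk1 : (0 : ℝ) < (k : ℝ) + 1 := by linarith
      have h1 : (k : ℝ) = (1 + -((k : ℝ) + 1)⁻¹) * ((k : ℝ) + 1) := by
        field_simp; ring
      have h2 : (1 + -((k : ℝ) + 1)⁻¹) ^ γ ≤ 1 + γ * -((k : ℝ) + 1)⁻¹ := by
        apply rpow_one_add_le_one_add_mul_self _ hγ.le hγ1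
        rw [neg_le_neg_iff]
        exact inv_le_one_of_one_le₀ (by linarith)
      have h3 : 0 ≤ 1 + -((k : ℝ) + 1)⁻¹ := by
        have := inv_le_one_of_one_le₀ (show (1 : ℝ) ≤ (k : ℝ) + 1 by linarith)
        linarith
      have h4 : (k : ℝ) ^ γ ≤ (1 - γ * ((k : ℝ) + 1)⁻¹) * ((k : ℝ) + 1) ^ γ := by
        calc (k : ℝ) ^ γ = ((1 + -((k : ℝ) + 1)⁻¹) * ((k : ℝ) + 1)) ^ γ := by rw [← h1]
          _ = (1 + -((k : ℝ) + 1)⁻¹) ^ γ * ((k : ℝ) + 1) ^ γ := Real.mul_rpow h3 hk1.le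
          _ ≤ _ := mul_le_mul_of_nonneg_right (by linarith) (Real.rpow_nonneg hk1.le _)
      push_cast
      rw [le_div_iff₀ hγ]
      have h5 : (k : ℝ) ^ γ / γ * γ = (k : ℝ) ^ γ := by field_simp
      nlinarith
  have hn : (0 : ℝ) ≤ n := Nat.cast_nonneg n
  have e : ∀ m ∈ range n, ((m : ℝ) + 1)⁻¹ * (((m : ℝ) + 1) / ((n : ℝ) + 1)) ^ γ =
      (((m : ℝ) + 1)⁻¹ * ((m : ℝ) + 1) ^ γ) / ((n : ℝ) + 1) ^ γ := by
    intro m _
    rw [Real.div_rpow (by positivity) (by positivity)]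
    ring
  rw [Finset.sum_congr rfl e, ← Finset.sum_div, div_le_div_iff₀ (by positivity) hγ, one_mul]
  have h6 := key n
  rw [le_div_iff₀ hγ] at h6
  exact h6.trans (Real.rpow_le_rpow hn (by linarith) hγ.le)

/-! ## the second moment -/

variable {Ω : Type*} [MeasurableSpace Ω] {μ : Measure Ω} [IsProbabilityMeasure μ]

/-- centred indicator -/
noncomputable def Yc (μ : Measure Ω) (A : Set Ω) (ω : Ω) : ℝ :=
  A.indicator (fun _ => (1 : ℝ)) ω - μ.real A

theorem ind_memLp {A : Set Ω} (hA : MeasurableSet A) :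
    MemLp (A.indicator (fun _ => (1 : ℝ))) 2 μ :=
  memLp_indicator_const 2 hA 1 (Or.inr (measure_ne_top _ _))

theorem Yc_memLp {A : Set Ω} (hA : MeasurableSet A) : MemLp (Yc μ A) 2 μ :=
  (ind_memLp hA).sub (memLp_const _)

omit [IsProbabilityMeasure μ] in
theorem int3 {f g h : Ω → ℝ} (hf : Integrable f μ) (hg : Integrable g μ) (hh : Integrable h μ)
    (c d : ℝ) : ∫ ω, (f ω + c * g ω + d * h ω) ∂μ = ∫ ω, f ω ∂μ + c * ∫ ω, g ω ∂μ +
      d * ∫ ω, h ω ∂μ := by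
  rw [integral_add (f := fun ω => f ω + c * g ω) (g := fun ω => d * h ω)
    (hf.add (hg.const_mul c)) (hh.const_mul d), integral_add (f := f) (g := fun ω => c * g ω)
    hf (hg.const_mul c), integral_const_mul, integral_const_mul]

theorem Yc_cov {A B : Set Ω} (hA : MeasurableSet A) (hB : MeasurableSet B) :
    ∫ ω, Yc μ A ω * Yc μ B ω ∂μ = μ.real (A ∩ B) - μ.real A * μ.real B := by
  have h1 : ∀ ω, Yc μ A ω * Yc μ B ω = (A ∩ B).indicator (fun _ => (1 : ℝ)) ω -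
      μ.real B * A.indicator (fun _ => (1 : ℝ)) ω - μ.real A * B.indicator (fun _ => (1 : ℝ)) ω +
      μ.real A * μ.real B := by
    intro ω
    unfold Yc
    by_cases ha : ω ∈ A <;> by_cases hb : ω ∈ B <;> simp [ha, hb] <;> ring
  have h2 : ∀ ω, Yc μ A ω * Yc μ B ω = (A ∩ B).indicator (fun _ => (1 : ℝ)) ω +
      (-μ.real B) * A.indicator (fun _ => (1 : ℝ)) ω +
      1 * ((-μ.real A) * B.indicator (fun _ => (1 : ℝ)) ω + μ.real A * μ.real B) := by
    intro ω; rw [h1]; ring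
  simp_rw [h2]
  have i1 : Integrable ((A ∩ B).indicator (fun _ => (1 : ℝ))) μ :=
    (integrable_const _).indicator (hA.inter hB)
  have i2 : Integrable (A.indicator (fun _ => (1 : ℝ))) μ := (integrable_const _).indicator hA
  have i3 : Integrable (B.indicator (fun _ => (1 : ℝ))) μ := (integrable_const _).indicator hB
  rw [int3 i1 i2 (h := fun ω => (-μ.real A) * B.indicator (fun _ => (1 : ℝ)) ω +
    μ.real A * μ.real B) ((i3.const_mul _).add (integrable_const _)),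
    integral_add (f := fun ω => (-μ.real A) * B.indicator (fun _ => (1 : ℝ)) ω)
      (g := fun _ => μ.real A * μ.real B) (i3.const_mul _) (integrable_const _),
    integral_const_mul, integral_indicator_const _ (hA.inter hB),
    integral_indicator_const _ hA, integral_indicator_const _ hB, integral_const]
  simp
  ring

/-- the weighted sum -/
noncomputable def Sc (μ : Measure Ω) (A : ℕ → Set Ω) (N : ℕ) (ω : Ω) : ℝ :=
  ∑ n ∈ range N, ((n : ℝ) + 1)⁻¹ * Yc μ (A (n + 1)) ω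

theorem Sc_memLp {A : ℕ → Set Ω} (hA : ∀ n, MeasurableSet (A n)) (N : ℕ) :
    MemLp (Sc μ A N) 2 μ := by
  unfold Sc
  exact memLp_finsetSum _ fun n _ => (Yc_memLp (hA (n + 1))).const_mul _

theorem Yc_abs (A : Set Ω) (ω : Ω) : |Yc μ A ω| ≤ 1 := by
  have h1 : 0 ≤ μ.real A := measureReal_nonneg
  have h2 : μ.real A ≤ 1 := measureReal_le_one
  unfold Yc
  by_cases h : ω ∈ A
  · rw [Set.indicator_of_mem h, abs_le]; constructor <;> linarith
  · rw [Set.indicator_of_notMem h, abs_le]; constructor <;> linarith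

theorem Sc_var {A : ℕ → Set Ω} (hA : ∀ n, MeasurableSet (A n)) {C γ : ℝ} (hC : 0 ≤ C)
    (hγ : 0 < γ) (hγ1 : γ ≤ 1)
    (h : ∀ m n, 1 ≤ m → m ≤ n →
      |μ.real (A m ∩ A n) - μ.real (A m) * μ.real (A n)| ≤ C * ((m : ℝ) / n) ^ γ) (N : ℕ) :
    ∫ ω, Sc μ A N ω ^ 2 ∂μ ≤ (2 * C / γ + 1) * HN N := by
  induction N with
  | zero => simp [Sc, HN]
  | succ N ih =>
    have hN : (0 : ℝ) < (N : ℝ) + 1 := by positivity
    have e1 : ∀ ω, Sc μ A (N + 1) ω ^ 2 = Sc μ A N ω ^ 2 +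
        2 * ((N : ℝ) + 1)⁻¹ * (Sc μ A N ω * Yc μ (A (N + 1)) ω) +
        (((N : ℝ) + 1)⁻¹) ^ 2 * (Yc μ (A (N + 1)) ω * Yc μ (A (N + 1)) ω) := by
      intro ω
      unfold Sc
      rw [Finset.sum_range_succ]
      ring
    have i1 : Integrable (fun ω => Sc μ A N ω ^ 2) μ := (Sc_memLp hA N).integrable_sq
    have i2 : Integrable (fun ω => Sc μ A N ω * Yc μ (A (N + 1)) ω) μ :=
      (Sc_memLp hA N).integrable_mul (Yc_memLp (hA (N + 1)))
    have i3 : Integrable (fun ω => Yc μ (A (N + 1)) ω * Yc μ (A (N + 1)) ω) μ :=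
      (Yc_memLp (hA (N + 1))).integrable_mul (Yc_memLp (hA (N + 1)))
    simp_rw [e1]
    rw [int3 i1 i2 i3]
    have c1 : ∫ ω, Sc μ A N ω * Yc μ (A (N + 1)) ω ∂μ ≤ C * (1 / γ) := by
      have e2 : ∀ ω, Sc μ A N ω * Yc μ (A (N + 1)) ω =
          ∑ n ∈ range N, ((n : ℝ) + 1)⁻¹ * (Yc μ (A (n + 1)) ω * Yc μ (A (N + 1)) ω) := by
        intro ω
        unfold Sc
        rw [Finset.sum_mul]
        exact Finset.sum_congr rfl fun n _ => by ring
      simp_rw [e2]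
      have i4 : ∀ n ∈ range N, Integrable (fun ω => ((n : ℝ) + 1)⁻¹ *
          (Yc μ (A (n + 1)) ω * Yc μ (A (N + 1)) ω)) μ := fun n _ =>
        ((Yc_memLp (hA (n + 1))).integrable_mul (Yc_memLp (hA (N + 1)))).const_mul _
      rw [integral_finsetSum _ i4]
      calc ∑ n ∈ range N, ∫ ω, ((n : ℝ) + 1)⁻¹ * (Yc μ (A (n + 1)) ω * Yc μ (A (N + 1)) ω) ∂μ
          ≤ ∑ n ∈ range N, C * (((n : ℝ) + 1)⁻¹ * (((n : ℝ) + 1) / ((N : ℝ) + 1)) ^ γ) := by
            apply Finset.sum_le_sum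
            intro n hn
            have hn' := Finset.mem_range.1 hn
            rw [integral_const_mul, Yc_cov (hA _) (hA _)]
            have h3 := (abs_le.1 (h (n + 1) (N + 1) (by omega) (by omega))).2
            push_cast at h3
            have h4 : (0 : ℝ) ≤ ((n : ℝ) + 1)⁻¹ := by positivity
            nlinarith
        _ = C * ∑ n ∈ range N, (((n : ℝ) + 1)⁻¹ * (((n : ℝ) + 1) / ((N : ℝ) + 1)) ^ γ) := by
            rw [Finset.mul_sum]
        _ ≤ C * (1 / γ) := mul_le_mul_of_nonneg_left (pow_sum hγ hγ1 N) hC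
    have c2 : ∫ ω, Yc μ (A (N + 1)) ω * Yc μ (A (N + 1)) ω ∂μ ≤ 1 := by
      calc ∫ ω, Yc μ (A (N + 1)) ω * Yc μ (A (N + 1)) ω ∂μ ≤ ∫ _ω, (1 : ℝ) ∂μ := by
            apply integral_mono i3 (integrable_const _)
            intro ω
            have := Yc_abs (μ := μ) (A (N + 1)) ω
            have h5 := abs_le.1 this
            show Yc μ (A (N + 1)) ω * Yc μ (A (N + 1)) ω ≤ 1
            nlinarith
        _ = 1 := by simp
    have h6 : HN (N + 1) = HN N + ((N : ℝ) + 1)⁻¹ := by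
      unfold HN; rw [Finset.sum_range_succ]
    rw [h6]
    have h7 : (0 : ℝ) < ((N : ℝ) + 1)⁻¹ := by positivity
    have h8 : ((N : ℝ) + 1)⁻¹ ≤ 1 := inv_le_one_of_one_le₀ (by linarith [Nat.cast_nonneg (α := ℝ) N])
    have h9 : 2 * ((N : ℝ) + 1)⁻¹ * (∫ ω, Sc μ A N ω * Yc μ (A (N + 1)) ω ∂μ) ≤
        2 * ((N : ℝ) + 1)⁻¹ * (C * (1 / γ)) := mul_le_mul_of_nonneg_left c1 (by positivity)
    have h10 : (((N : ℝ) + 1)⁻¹) ^ 2 * (∫ ω, Yc μ (A (N + 1)) ω * Yc μ (A (N + 1)) ω ∂μ) ≤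
        ((N : ℝ) + 1)⁻¹ := by
      calc _ ≤ (((N : ℝ) + 1)⁻¹) ^ 2 * 1 := mul_le_mul_of_nonneg_left c2 (by positivity)
        _ ≤ ((N : ℝ) + 1)⁻¹ := by nlinarith
    have h11 : 2 * ((N : ℝ) + 1)⁻¹ * (C * (1 / γ)) = 2 * C / γ * ((N : ℝ) + 1)⁻¹ := by ring
    rw [h11] at h9
    linarith [h9, h10, ih]

/-! ## almost sure convergence -/

omit [IsProbabilityMeasure μ] in
/-- a sequence of functions with summable second moments tends to zero almost surely -/
theorem ae_zero {f : ℕ → Ω → ℝ} (hf : ∀ n, MemLp (f n) 2 μ) {c : ℕ → ℝ} (hc : Summable c)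
    (h : ∀ n, ∫ ω, f n ω ^ 2 ∂μ ≤ c n) : ∀ᵐ ω ∂μ, Tendsto (fun n => f n ω) atTop (𝓝 0) := by
  have h0 : ∀ n, 0 ≤ c n := fun n =>
    (integral_nonneg (fun ω => sq_nonneg (f n ω))).trans (h n)
  have h1 : ∀ n, ∫⁻ ω, ENNReal.ofReal (f n ω ^ 2) ∂μ ≤ ENNReal.ofReal (c n) := by
    intro n
    rw [← ofReal_integral_eq_lintegral_ofReal (hf n).integrable_sq
      (Eventually.of_forall fun ω => sq_nonneg _)]
    exact ENNReal.ofReal_le_ofReal (h n)
  have hm : ∀ n, AEMeasurable (fun ω => ENNReal.ofReal (f n ω ^ 2)) μ := fun n =>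
    ((hf n).1.aemeasurable.pow_const 2).ennreal_ofReal
  have h2 : ∫⁻ ω, ∑' n, ENNReal.ofReal (f n ω ^ 2) ∂μ ≠ ⊤ := by
    rw [lintegral_tsum hm]
    refine ne_top_of_le_ne_top ?_ (ENNReal.tsum_le_tsum h1)
    exact hc.tsum_ofReal_ne_top
  have h3 := ae_lt_top' (AEMeasurable.ennreal_tsum hm) h2
  filter_upwards [h3] with ω hω
  have h4 : Tendsto (fun n => ENNReal.ofReal (f n ω ^ 2)) atTop (𝓝 0) :=
    ENNReal.tendsto_atTop_zero_of_tsum_ne_top hω.ne
  have h5 : Tendsto (fun n => f n ω ^ 2) atTop (𝓝 0) := by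
    have h6 := (ENNReal.tendsto_toReal (a := 0) (by simp)).comp h4
    simp only [ENNReal.toReal_zero] at h6
    refine h6.congr fun n => ?_
    simp only [Function.comp_apply]
    rw [ENNReal.toReal_ofReal (sq_nonneg _)]
  have h6 : Tendsto (fun n => Real.sqrt (f n ω ^ 2)) atTop (𝓝 (Real.sqrt 0)) :=
    (Real.continuous_sqrt.tendsto 0).comp h5
  rw [Real.sqrt_zero] at h6
  simp_rw [Real.sqrt_sq_eq_abs] at h6
  exact (tendsto_zero_iff_abs_tendsto_zero _).2 h6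

/-- the block index -/
def jj (N : ℕ) : ℕ := Nat.sqrt (Nat.log 2 N)

theorem jj_le {N : ℕ} (h : 1 ≤ N) : 2 ^ (jj N) ^ 2 ≤ N := by
  have h1 : (jj N) ^ 2 ≤ Nat.log 2 N := by
    unfold jj; rw [pow_two]; exact Nat.sqrt_le _
  exact (Nat.pow_le_pow_right (by norm_num) h1).trans (Nat.pow_log_le_self 2 (by omega))

theorem lt_jj (N : ℕ) : N < 2 ^ (jj N + 1) ^ 2 := by
  have h1 : Nat.log 2 N + 1 ≤ (jj N + 1) ^ 2 := by
    unfold jj; rw [pow_two]; exact Nat.lt_succ_sqrt _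
  exact (Nat.lt_pow_succ_log_self (by norm_num) N).trans_le (Nat.pow_le_pow_right (by norm_num) h1)

theorem jj_tendsto : Tendsto jj atTop atTop := by
  rw [tendsto_atTop]
  intro b
  filter_upwards [eventually_ge_atTop (2 ^ b ^ 2)] with N hN
  unfold jj
  rw [Nat.le_sqrt, ← pow_two]
  exact Nat.le_log_of_pow_le (by norm_num) hN

theorem log_avg_zero {A : ℕ → Set Ω} (hA : ∀ n, MeasurableSet (A n)) {C γ : ℝ} (hC : 0 ≤ C)
    (hγ : 0 < γ) (hγ1 : γ ≤ 1)
    (h : ∀ m n, 1 ≤ m → m ≤ n →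
      |μ.real (A m ∩ A n) - μ.real (A m) * μ.real (A n)| ≤ C * ((m : ℝ) / n) ^ γ) :
    ∀ᵐ ω ∂μ, Tendsto (fun N : ℕ => Sc μ A N ω / Real.log N) atTop (𝓝 0) := by
  have hl2 : 0 < Real.log 2 := Real.log_pos (by norm_num)
  set K : ℝ := 2 * C / γ + 1 with hK
  have hK0 : 0 ≤ K := by positivity
  -- along the subsequence
  have hsub : ∀ᵐ ω ∂μ, Tendsto (fun j : ℕ => Sc μ A (2 ^ (j + 1) ^ 2) ω /
      (((j : ℝ) + 1) ^ 2 * Real.log 2)) atTop (𝓝 0) := by
    apply ae_zero (c := fun j : ℕ => K * (1 + Real.log 2) / Real.log 2 ^ 2 * (1 / ((j : ℝ) + 1) ^ 2))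
      (fun j => by
        have e0 : (fun ω => Sc μ A (2 ^ (j + 1) ^ 2) ω / (((j : ℝ) + 1) ^ 2 * Real.log 2)) =
            fun ω => (((j : ℝ) + 1) ^ 2 * Real.log 2)⁻¹ * Sc μ A (2 ^ (j + 1) ^ 2) ω := by
          funext ω; rw [div_eq_inv_mul]
        rw [e0]
        exact (Sc_memLp (μ := μ) hA (2 ^ (j + 1) ^ 2)).const_mul _)
    · apply Summable.mul_left
      have := (Real.summable_one_div_nat_add_rpow 1 2).2 (by norm_num)
      refine this.congr fun j => ?_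
      rw [abs_of_nonneg (by positivity)]
      norm_num
    · intro j
      have e1 : ∀ ω, (Sc μ A (2 ^ (j + 1) ^ 2) ω / (((j : ℝ) + 1) ^ 2 * Real.log 2)) ^ 2 =
          ((((j : ℝ) + 1) ^ 2 * Real.log 2) ^ 2)⁻¹ * Sc μ A (2 ^ (j + 1) ^ 2) ω ^ 2 := by
        intro ω; rw [div_pow, div_eq_inv_mul]
      simp_rw [e1]
      rw [integral_const_mul]
      have h1 := Sc_var (μ := μ) hA hC hγ hγ1 h (2 ^ (j + 1) ^ 2)
      have h2 := HN_le (2 ^ (j + 1) ^ 2)
      push_cast at h2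
      rw [Real.log_pow] at h2
      push_cast at h2
      have hj : (1 : ℝ) ≤ ((j : ℝ) + 1) ^ 2 := by
        have : (0 : ℝ) ≤ j := Nat.cast_nonneg j
        nlinarith
      have h3 : HN (2 ^ (j + 1) ^ 2) ≤ ((j : ℝ) + 1) ^ 2 * (1 + Real.log 2) := by
        push_cast
        nlinarith
      have h4 : ∫ ω, Sc μ A (2 ^ (j + 1) ^ 2) ω ^ 2 ∂μ ≤
          K * (((j : ℝ) + 1) ^ 2 * (1 + Real.log 2)) :=
        h1.trans (mul_le_mul_of_nonneg_left h3 hK0)
      refine (mul_le_mul_of_nonneg_left h4 (by positivity)).trans (le_of_eq ?_)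
      field_simp
  filter_upwards [hsub] with ω hω
  -- interpolation
  have hlim : Tendsto (fun N : ℕ => |Sc μ A (2 ^ (jj N) ^ 2) ω| / ((jj N : ℝ) ^ 2 * Real.log 2) +
      (1 + (2 * (jj N : ℝ) + 1) * Real.log 2) / ((jj N : ℝ) ^ 2 * Real.log 2)) atTop (𝓝 (0 + 0)) := by
    apply Tendsto.add
    · have h1 : Tendsto (fun j : ℕ => |Sc μ A (2 ^ j ^ 2) ω| / ((j : ℝ) ^ 2 * Real.log 2))
          atTop (𝓝 0) := by
        rw [← tendsto_add_atTop_iff_nat 1]
        have h2 := hω.abs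
        rw [abs_zero] at h2
        refine h2.congr fun j => ?_
        rw [abs_div, abs_of_nonneg (by positivity : 0 ≤ ((j : ℝ) + 1) ^ 2 * Real.log 2)]
        push_cast
        rfl
      exact h1.comp jj_tendsto
    · have h1 : Tendsto (fun j : ℕ => (1 + (2 * (j : ℝ) + 1) * Real.log 2) /
          ((j : ℝ) ^ 2 * Real.log 2)) atTop (𝓝 0) := by
        have t1 : Tendsto (fun j : ℕ => ((j : ℝ))⁻¹) atTop (𝓝 0) :=
          tendsto_inv_atTop_zero.comp tendsto_natCast_atTop_atTop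
        have t2 : Tendsto (fun j : ℕ => ((1 + Real.log 2) / Real.log 2) * (((j : ℝ))⁻¹ * ((j : ℝ))⁻¹) +
            2 * ((j : ℝ))⁻¹) atTop (𝓝 (((1 + Real.log 2) / Real.log 2) * (0 * 0) + 2 * 0)) :=
          ((t1.mul t1).const_mul _).add (t1.const_mul 2)
        simp only [mul_zero, add_zero] at t2
        refine t2.congr' ?_
        filter_upwards [eventually_ge_atTop 1] with j hj
        have hj' : (j : ℝ) ≠ 0 := by
          have : (1 : ℝ) ≤ j := by exact_mod_cast hj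
          linarith
        field_simp
        ring
      exact h1.comp jj_tendsto
  rw [add_zero] at hlim
  refine squeeze_zero_norm' ?_ hlim
  filter_upwards [eventually_ge_atTop 2, jj_tendsto.eventually_ge_atTop 1] with N hN hjN
  set j := jj N with hj
  set M : ℕ := 2 ^ j ^ 2 with hM
  have hM1 : 1 ≤ M := Nat.one_le_two_pow
  have hMN : M ≤ N := jj_le (by omega)
  have hN' : (2 : ℝ) ≤ N := by exact_mod_cast hN
  have hj' : (1 : ℝ) ≤ j := by exact_mod_cast hjN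
  have hlogN : 0 < Real.log N := Real.log_pos (by linarith)
  have hlogM : Real.log M = (j : ℝ) ^ 2 * Real.log 2 := by
    rw [hM]; push_cast; rw [Real.log_pow]; push_cast; rfl
  have hMN' : Real.log M ≤ Real.log N :=
    Real.log_le_log (by exact_mod_cast hM1) (by exact_mod_cast hMN)
  have hup : Real.log N ≤ ((j : ℝ) + 1) ^ 2 * Real.log 2 := by
    have h1 : (N : ℝ) ≤ 2 ^ (j + 1) ^ 2 := by exact_mod_cast (lt_jj N).le
    calc Real.log N ≤ Real.log (2 ^ (j + 1) ^ 2) := Real.log_le_log (by linarith) h1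
      _ = _ := by rw [Real.log_pow]; push_cast; rfl
  have hdiff : |Sc μ A N ω - Sc μ A M ω| ≤ HN N - HN M := by
    unfold Sc HN
    rw [← Finset.sum_range_add_sum_Ico _ hMN, ← Finset.sum_range_add_sum_Ico _ hMN,
      add_sub_cancel_left, add_sub_cancel_left]
    refine (Finset.abs_sum_le_sum_abs _ _).trans (Finset.sum_le_sum fun n _ => ?_)
    rw [abs_mul, abs_of_nonneg (by positivity : (0 : ℝ) ≤ ((n : ℝ) + 1)⁻¹)]
    have h1 := Yc_abs (μ := μ) (A (n + 1)) ω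
    have h2 : (0 : ℝ) ≤ ((n : ℝ) + 1)⁻¹ := by positivity
    nlinarith
  have hHN := HN_diff (N := N) hM1
  have hlogM0 : 0 < (j : ℝ) ^ 2 * Real.log 2 := by positivity
  rw [Real.norm_eq_abs, abs_div, abs_of_pos hlogN]
  have h1 : |Sc μ A N ω| ≤ |Sc μ A M ω| + (1 + (2 * (j : ℝ) + 1) * Real.log 2) := by
    have h2 : |Sc μ A N ω| ≤ |Sc μ A M ω| + |Sc μ A N ω - Sc μ A M ω| := by
      have := abs_add_le (Sc μ A M ω) (Sc μ A N ω - Sc μ A M ω)
      rwa [add_sub_cancel] at this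
    nlinarith
  rw [← add_div]
  apply div_le_div₀ _ h1 hlogM0 _
  · positivity
  · rw [← hlogM]; exact hMN'

theorem log_avg {A : ℕ → Set Ω} (hA : ∀ n, MeasurableSet (A n)) {C γ : ℝ} (hC : 0 ≤ C)
    (hγ : 0 < γ) (hγ1 : γ ≤ 1)
    (h : ∀ m n, 1 ≤ m → m ≤ n →
      |μ.real (A m ∩ A n) - μ.real (A m) * μ.real (A n)| ≤ C * ((m : ℝ) / n) ^ γ)
    {p : ℝ} (hp : Tendsto (fun n => μ.real (A n)) atTop (𝓝 p)) :
    ∀ᵐ ω ∂μ, Tendsto (fun N : ℕ => (∑ n ∈ Icc 1 N, (n : ℝ)⁻¹ *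
      (A n).indicator (fun _ => (1 : ℝ)) ω) / Real.log N) atTop (𝓝 p) := by
  have hH : Tendsto (fun N : ℕ => HN N / Real.log N) atTop (𝓝 1) := by
    have t1 : Tendsto (fun N : ℕ => (Real.log N)⁻¹) atTop (𝓝 0) :=
      tendsto_inv_atTop_zero.comp (Real.tendsto_log_atTop.comp tendsto_natCast_atTop_atTop)
    have t2 : Tendsto (fun N : ℕ => (Real.log N)⁻¹ + 1) atTop (𝓝 (0 + 1)) := t1.add_const 1
    rw [zero_add] at t2
    refine tendsto_of_tendsto_of_tendsto_of_le_of_le' tendsto_const_nhds t2 ?_ ?_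
    · filter_upwards [eventually_ge_atTop 2] with N hN
      have hN' : (2 : ℝ) ≤ N := by exact_mod_cast hN
      have hl : 0 < Real.log N := Real.log_pos (by linarith)
      rw [le_div_iff₀ hl, one_mul]
      exact (Real.log_le_log (by linarith) (by linarith)).trans (le_HN N)
    · filter_upwards [eventually_ge_atTop 2] with N hN
      have hN' : (2 : ℝ) ≤ N := by exact_mod_cast hN
      have hl : 0 < Real.log N := Real.log_pos (by linarith)
      rw [div_le_iff₀ hl, add_mul, inv_mul_cancel₀ hl.ne', one_mul]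
      exact HN_le N
  have hsumtop : Tendsto HN atTop atTop := by
    refine tendsto_atTop_mono (fun N => ?_)
      (Real.tendsto_log_atTop.comp tendsto_natCast_atTop_atTop)
    rcases Nat.eq_zero_or_pos N with rfl | hN
    · simp [HN]
    · have hN' : (1 : ℝ) ≤ N := by exact_mod_cast hN
      exact (Real.log_le_log (by linarith) (by linarith)).trans (le_HN N)
  have hlit : (fun N : ℕ => ∑ n ∈ range N, ((n : ℝ) + 1)⁻¹ * (μ.real (A (n + 1)) - p)) =o[atTop]
      (fun N => ∑ n ∈ range N, ((n : ℝ) + 1)⁻¹) := by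
    apply Asymptotics.IsLittleO.sum_range
    · rw [Asymptotics.isLittleO_iff_tendsto' (Eventually.of_forall fun n hn => by
        have : (0 : ℝ) < ((n : ℝ) + 1)⁻¹ := by positivity
        linarith)]
      have t1 : Tendsto (fun n => μ.real (A (n + 1)) - p) atTop (𝓝 (p - p)) :=
        ((tendsto_add_atTop_iff_nat 1).2 hp).sub_const p
      rw [sub_self] at t1
      refine t1.congr fun n => ?_
      have : (0 : ℝ) < ((n : ℝ) + 1)⁻¹ := by positivity
      field_simp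
    · intro n; show (0 : ℝ) ≤ ((n : ℝ) + 1)⁻¹; positivity
    · exact hsumtop
  have hmean : Tendsto (fun N : ℕ => (∑ n ∈ range N, ((n : ℝ) + 1)⁻¹ * μ.real (A (n + 1))) /
      Real.log N) atTop (𝓝 p) := by
    have t1 := (hlit.tendsto_div_nhds_zero).mul hH
    rw [zero_mul] at t1
    have t2 := t1.add (hH.const_mul p)
    rw [zero_add, mul_one] at t2
    refine t2.congr' ?_
    filter_upwards [eventually_ge_atTop 2] with N hN
    have hN' : (2 : ℝ) ≤ N := by exact_mod_cast hN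
    have hl : 0 < Real.log N := Real.log_pos (by linarith)
    have hHN : 0 < HN N := by
      refine lt_of_lt_of_le ?_ (le_HN N)
      exact Real.log_pos (by linarith)
    show (∑ n ∈ range N, ((n : ℝ) + 1)⁻¹ * (μ.real (A (n + 1)) - p)) / HN N *
      (HN N / Real.log N) + p * (HN N / Real.log N) = _
    have e1 : ∑ n ∈ range N, ((n : ℝ) + 1)⁻¹ * (μ.real (A (n + 1)) - p) =
        ∑ n ∈ range N, ((n : ℝ) + 1)⁻¹ * μ.real (A (n + 1)) - p * HN N := by
      unfold HN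
      rw [Finset.mul_sum, ← Finset.sum_sub_distrib]
      exact Finset.sum_congr rfl fun n _ => by ring
    rw [e1]
    field_simp
    ring
  filter_upwards [log_avg_zero (μ := μ) hA hC hγ hγ1 h] with ω hω
  have t3 := hω.add hmean
  rw [zero_add] at t3
  refine t3.congr fun N => ?_
  rw [← add_div, sum_Icc_shift]
  congr 1
  unfold Sc
  rw [← Finset.sum_add_distrib]
  apply Finset.sum_congr rfl
  intro n _
  unfold Yc
  push_cast
  ring

end Pool.Agent.N931.AS
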