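import Pool.Agent.N931.AS.Decor
import Pool.Agent.N931.AS.LogAvg
import Pool.Agent.H984Q.Limit

/-!
Almost sure Cardy formula (in logarithmic average) for one exploration path.
-/

namespace Pool.Agent.N931.AS

open Pool.Agent.H988R2.Perc hiding X
open Pool.Agent.H31C Pool.Agent.H492E Pool.Agent.H984Q Finset MeasureTheory Filter Topology
open Pool.Agent.H863R4 Pool.Agent.H757R2.CardyLimit Pool.Agent.H980R4.Rate

/-- Decorrelation of the exit events. -/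
theorem rf_decor : ∃ C γ : ℝ, 0 < C ∧ 0 < γ ∧ γ ≤ 1 ∧ ∀ a b a' b' : ℕ, Odd a → Odd b → Odd a' →
    Odd b' → |perc.real (RightFirst a b ∩ RightFirst a' b') -
      perc.real (RightFirst a b) * perc.real (RightFirst a' b')| ≤ C * ((a : ℝ) / b') ^ γ := by
  obtain ⟨C, γ, hC, hγ, hγ1, h⟩ := decor
  refine ⟨C, γ, hC, hγ, hγ1, fun a b a' b' ha hb ha' hb' => ?_⟩
  rw [measureReal_congr ((right_ae ha hb).inter (right_ae ha' hb')),
    measureReal_congr (right_ae ha hb), measureReal_congr (right_ae ha' hb')]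
  exact h a b a' b' ha.pos hb'.pos

theorem cardyF_continuousOn : ContinuousOn cardyF (Set.Icc 0 1) := by
  have e : cardyF = fun x => (∫ t in (0:ℝ)..x, gd t) / BB := by
    funext x; rw [cardyF_eq]; rfl
  rw [e]
  apply ContinuousOn.div_const
  have h1 := intervalIntegral.continuousOn_primitive_interval' int_gd.1
    (a := (0 : ℝ)) (by rw [Set.uIcc_of_le zero_le_one]; exact ⟨le_rfl, zero_le_one⟩)
  rwa [Set.uIcc_of_le zero_le_one] at h1

/-- the limit of the exit probabilities, `α, β` real -/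
noncomputable def GG (x : ℝ × ℝ) : ℝ := cardyF (x.1 / (x.1 + x.2))

theorem GG_continuousAt {α β : ℝ} (hα : 0 < α) (hβ : 0 < β) : ContinuousAt GG (α, β) := by
  unfold GG
  have h1 : α / (α + β) ∈ Set.Ioo (0 : ℝ) 1 :=
    ⟨by positivity, by rw [div_lt_one (by positivity)]; linarith⟩
  have h2 : ContinuousAt cardyF (α / (α + β)) :=
    cardyF_continuousOn.continuousAt (Icc_mem_nhds h1.1 h1.2)
  have h3 : ContinuousAt (fun x : ℝ × ℝ => x.1 / (x.1 + x.2)) (α, β) :=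
    continuousAt_fst.div (continuousAt_fst.add continuousAt_snd) (by simp only; positivity)
  exact ContinuousAt.comp (f := fun x : ℝ × ℝ => x.1 / (x.1 + x.2)) (g := cardyF) h2 h3

/-- logarithmic averages for sequences of odd parameters -/
theorem odd_avg {a b : ℕ → ℕ} (ha : ∀ n, Odd (a n)) (hb : ∀ n, Odd (b n)) {K α β : ℝ}
    (hα : 0 < α) (hβ : 0 < β) (hK : 0 < K) (h1 : ∀ n : ℕ, 1 ≤ n → (a n : ℝ) ≤ K * n)
    (h2 : ∀ n : ℕ, 1 ≤ n → (n : ℝ) ≤ K * b n)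
    (la : Tendsto (fun n : ℕ => ((n : ℝ) + 1)⁻¹ * a n) atTop (𝓝 α))
    (lb : Tendsto (fun n : ℕ => ((n : ℝ) + 1)⁻¹ * b n) atTop (𝓝 β)) :
    ∀ᵐ ω ∂perc, Tendsto (fun N : ℕ => (∑ n ∈ Icc 1 N, (n : ℝ)⁻¹ *
      (RightFirst (a n) (b n)).indicator (fun _ => (1 : ℝ)) ω) / Real.log N) atTop
        (𝓝 (GG (α, β))) := by
  obtain ⟨C, γ, hC, hγ, hγ1, h⟩ := rf_decor
  have hp : Tendsto (fun n => perc.real (RightFirst (a n) (b n))) atTop (𝓝 (GG (α, β))) := by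
    have hm := mesh hα hβ (fun n : ℕ => ((n : ℝ) + 1)⁻¹) a b (fun n => by positivity)
      (by
        have : Tendsto (fun n : ℕ => (1 : ℝ) / ((n : ℝ) + 1)) atTop (𝓝 0) :=
          tendsto_one_div_add_atTop_nhds_zero_nat
        exact this.congr fun n => one_div _) la lb
    exact lim_right exact_cardy limit_cardy a b (α / (α + β)) (by positivity)
      (by rw [div_lt_one (by positivity)]; linarith) hm.1 hm.2
  refine log_avg (μ := perc) (A := fun n => RightFirst (a n) (b n)) (fun n => (m_events _ _).1)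
    (C := C * (K * K) ^ γ) (by positivity) hγ hγ1 ?_ hp
  intro m n hm hmn
  refine (h _ _ _ _ (ha m) (hb m) (ha n) (hb n)).trans ?_
  rw [mul_assoc, ← Real.mul_rpow (by positivity) (by positivity)]
  apply mul_le_mul_of_nonneg_left _ hC.le
  apply Real.rpow_le_rpow (by positivity) _ hγ.le
  have k1 := h1 m hm
  have k2 := h2 n (hm.trans hmn)
  have hm' : (1 : ℝ) ≤ m := by exact_mod_cast hm
  have hn' : (1 : ℝ) ≤ n := by exact_mod_cast hm.trans hmn
  have hb0 : (0 : ℝ) < b n := by exact_mod_cast (hb n).pos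
  rw [← mul_div_assoc, div_le_div_iff₀ hb0 (by linarith)]
  calc (a m : ℝ) * n ≤ (K * m) * (K * b n) := mul_le_mul k1 k2 (by linarith) (by positivity)
    _ = _ := by ring

theorem ceil_lim {α : ℝ} (hα : 0 < α) {c : ℕ → ℕ} (hc : ∀ n : ℕ, |(c n : ℝ) - ⌈α * n⌉₊| ≤ 1) :
    Tendsto (fun n : ℕ => ((n : ℝ) + 1)⁻¹ * c n) atTop (𝓝 α) := by
  have t0 : Tendsto (fun n : ℕ => ((n : ℝ) + 1)⁻¹) atTop (𝓝 0) := by
    have : Tendsto (fun n : ℕ => (1 : ℝ) / ((n : ℝ) + 1)) atTop (𝓝 0) :=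
      tendsto_one_div_add_atTop_nhds_zero_nat
    exact this.congr fun n => one_div _
  have t1 : Tendsto (fun n : ℕ => α + (-(α + 1)) * ((n : ℝ) + 1)⁻¹) atTop
      (𝓝 (α + (-(α + 1)) * 0)) := (t0.const_mul _).const_add _
  have t2 : Tendsto (fun n : ℕ => α + 2 * ((n : ℝ) + 1)⁻¹) atTop (𝓝 (α + 2 * 0)) :=
    (t0.const_mul _).const_add _
  rw [mul_zero, add_zero] at t1 t2
  refine tendsto_of_tendsto_of_tendsto_of_le_of_le t1 t2 (fun n => ?_) (fun n => ?_)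
  · have h1 := (abs_le.1 (hc n)).1
    have h2 := Nat.le_ceil (α * n)
    have h3 : (0 : ℝ) < (n : ℝ) + 1 := by positivity
    show α + (-(α + 1)) * ((n : ℝ) + 1)⁻¹ ≤ ((n : ℝ) + 1)⁻¹ * c n
    have h4 : α + (-(α + 1)) * ((n : ℝ) + 1)⁻¹ = ((n : ℝ) + 1)⁻¹ * (α * n - 1) := by
      field_simp
      ring
    rw [h4]
    exact mul_le_mul_of_nonneg_left (by linarith) (by positivity)
  · have h1 := (abs_le.1 (hc n)).2
    have h2 := Nat.ceil_lt_add_one (show 0 ≤ α * n by positivity)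
    have h3 : (0 : ℝ) < (n : ℝ) + 1 := by positivity
    show ((n : ℝ) + 1)⁻¹ * c n ≤ α + 2 * ((n : ℝ) + 1)⁻¹
    have h4 : α + 2 * ((n : ℝ) + 1)⁻¹ = ((n : ℝ) + 1)⁻¹ * (α * n + α + 2) := by
      field_simp
    rw [h4]
    exact mul_le_mul_of_nonneg_left (by linarith) (by positivity)

/-- monotonicity of the logarithmic averages -/
theorem avg_mono {A B : ℕ → Set Conf} {ω : Conf} {N : ℕ} (h : ∀ n, 1 ≤ n → A n ⊆ B n) :
    (∑ n ∈ Icc 1 N, (n : ℝ)⁻¹ * (A n).indicator (fun _ => (1 : ℝ)) ω) / Real.log N ≤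
      (∑ n ∈ Icc 1 N, (n : ℝ)⁻¹ * (B n).indicator (fun _ => (1 : ℝ)) ω) / Real.log N := by
  apply div_le_div_of_nonneg_right _ (Real.log_natCast_nonneg N)
  apply Finset.sum_le_sum
  intro n hn
  have hn1 := (Finset.mem_Icc.1 hn).1
  apply mul_le_mul_of_nonneg_left _ (by positivity)
  exact Set.indicator_le_indicator_of_subset (h n hn1) (fun _ => zero_le_one) ω

/-- the logarithmic average -/
noncomputable def LA (α β : ℝ) (ω : Conf) (N : ℕ) : ℝ :=
  (∑ n ∈ Icc 1 N, (n : ℝ)⁻¹ * (RightFirst ⌈α * n⌉₊ ⌈β * n⌉₊).indicator (fun _ => (1 : ℝ)) ω) /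
    Real.log N

theorem fixed_avg {α β : ℝ} (hα : 0 < α) (hβ : 0 < β) :
    ∀ᵐ ω ∂perc, Tendsto (LA α β ω) atTop (𝓝 (GG (α, β))) := by
  have bnd : ∀ {x : ℝ}, 0 < x → ∀ c : ℕ → ℕ, (∀ n : ℕ, |(c n : ℝ) - ⌈x * n⌉₊| ≤ 1) →
      ∀ n : ℕ, 1 ≤ n → (c n : ℝ) ≤ (x + 2 + 2 / x) * n := by
    intro x hx c hc n hn
    have h1 := (abs_le.1 (hc n)).2
    have h2 := Nat.ceil_lt_add_one (show 0 ≤ x * n by positivity)
    have hn' : (1 : ℝ) ≤ n := by exact_mod_cast hn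
    have h3 : 0 < 2 / x := by positivity
    nlinarith
  have bnd2 : ∀ {x : ℝ}, 0 < x → ∀ n : ℕ, 1 ≤ n → ∀ c : ℕ → ℕ, (∀ n, Odd (c n)) →
      (∀ n : ℕ, |(c n : ℝ) - ⌈x * n⌉₊| ≤ 1) →
      (n : ℝ) ≤ (x + 2 + 2 / x) * c n := by
    intro x hx n hn c ho hc
    have h1 := (abs_le.1 (hc n)).1
    have h2 := Nat.le_ceil (x * n)
    have hc1 : (1 : ℝ) ≤ c n := by exact_mod_cast (ho n).pos
    have h3 : x * n ≤ 2 * c n := by linarith
    have h4 : (n : ℝ) ≤ 2 / x * c n := by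
      rw [div_mul_eq_mul_div, le_div_iff₀ hx]; linarith
    nlinarith
  set K : ℝ := (α + 2 + 2 / α) + (β + 2 + 2 / β) with hK
  have hK1 : 0 < (α + 2 + 2 / α) := by positivity
  have hK2 : 0 < (β + 2 + 2 / β) := by positivity
  have key : ∀ a b : ℕ → ℕ, (∀ n, Odd (a n)) → (∀ n, Odd (b n)) →
      (∀ n : ℕ, |(a n : ℝ) - ⌈α * n⌉₊| ≤ 1) → (∀ n : ℕ, |(b n : ℝ) - ⌈β * n⌉₊| ≤ 1) →
      ∀ᵐ ω ∂perc, Tendsto (fun N : ℕ => (∑ n ∈ Icc 1 N, (n : ℝ)⁻¹ *
        (RightFirst (a n) (b n)).indicator (fun _ => (1 : ℝ)) ω) / Real.log N) atTop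
          (𝓝 (GG (α, β))) := by
    intro a b ha hb da db
    refine odd_avg ha hb hα hβ (K := K) (by positivity) ?_ ?_ (ceil_lim hα da) (ceil_lim hβ db)
    · intro n hn
      refine (bnd hα a da n hn).trans (mul_le_mul_of_nonneg_right (by linarith) (by positivity))
    · intro n hn
      refine (bnd2 hβ n hn b hb db).trans (mul_le_mul_of_nonneg_right (by linarith) (by positivity))
  have k1 := key (fun n => od ⌈α * n⌉₊) (fun n => ou ⌈β * n⌉₊) (fun n => od_odd _)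
    (fun n => ou_odd _) (fun n => od_dist _) (fun n => ou_dist _)
  have k2 := key (fun n => ou ⌈α * n⌉₊) (fun n => od ⌈β * n⌉₊) (fun n => ou_odd _)
    (fun n => od_odd _) (fun n => ou_dist _) (fun n => od_dist _)
  filter_upwards [k1, k2] with ω h1 h2
  have pos : ∀ {x : ℝ}, 0 < x → ∀ n : ℕ, 1 ≤ n → ⌈x * n⌉₊ ≠ 0 := by
    intro x hx n hn
    have hn' : (1 : ℝ) ≤ n := by exact_mod_cast hn
    have : 0 < ⌈x * n⌉₊ := Nat.ceil_pos.2 (by positivity)
    omega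
  refine tendsto_of_tendsto_of_tendsto_of_le_of_le h1 h2 (fun N => ?_) (fun N => ?_)
  · exact avg_mono (A := fun n => RightFirst (od ⌈α * n⌉₊) (ou ⌈β * n⌉₊))
      (B := fun n => RightFirst ⌈α * n⌉₊ ⌈β * n⌉₊)
      fun n hn => mono_right _ _ _ _ (od_le (pos hα n hn)) (le_ou _)
  · exact avg_mono (A := fun n => RightFirst ⌈α * n⌉₊ ⌈β * n⌉₊)
      (B := fun n => RightFirst (ou ⌈α * n⌉₊) (od ⌈β * n⌉₊))
      fun n hn => mono_right _ _ _ _ (le_ou _) (od_le (pos hβ n hn))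

theorem LA_mono {α β α' β' : ℝ} (h1 : α ≤ α') (h2 : β' ≤ β) (ω : Conf) (N : ℕ) :
    LA α β ω N ≤ LA α' β' ω N := by
  refine avg_mono (A := fun n => RightFirst ⌈α * n⌉₊ ⌈β * n⌉₊)
    (B := fun n => RightFirst ⌈α' * n⌉₊ ⌈β' * n⌉₊) fun n _ => mono_right _ _ _ _ ?_ ?_
  · exact Nat.ceil_le_ceil (mul_le_mul_of_nonneg_right h1 (by positivity))
  · exact Nat.ceil_le_ceil (mul_le_mul_of_nonneg_right h2 (by positivity))

/-- Almost surely, the logarithmic averages converge for all `α, β` at once. -/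
theorem all_avg : ∀ᵐ ω ∂perc, ∀ α β : ℝ, 0 < α → 0 < β →
    Tendsto (LA α β ω) atTop (𝓝 (GG (α, β))) := by
  have h : ∀ᵐ ω ∂perc, ∀ (s t : ℚ), 0 < s → 0 < t →
      Tendsto (LA (s : ℝ) (t : ℝ) ω) atTop (𝓝 (GG ((s : ℝ), (t : ℝ)))) := by
    rw [ae_all_iff]; intro s
    rw [ae_all_iff]; intro t
    by_cases hs : 0 < s
    · by_cases ht : 0 < t
      · filter_upwards [fixed_avg (α := (s : ℝ)) (β := (t : ℝ)) (by exact_mod_cast hs)
          (by exact_mod_cast ht)] with ω hω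
        exact fun _ _ => hω
      · exact Eventually.of_forall fun ω _ h => absurd h ht
    · exact Eventually.of_forall fun ω h => absurd h hs
  filter_upwards [h] with ω hω α β hα hβ
  have hc := Metric.continuousAt_iff.1 (GG_continuousAt hα hβ)
  rw [Metric.tendsto_atTop]
  intro ε hε
  obtain ⟨δ, hδ, hd⟩ := hc (ε / 2) (by positivity)
  obtain ⟨s1, hs1, hs1'⟩ := exists_rat_btwn (show max 0 (α - δ) < α from max_lt hα (by linarith))
  obtain ⟨s2, hs2, hs2'⟩ := exists_rat_btwn (show α < α + δ by linarith)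
  obtain ⟨t1, ht1, ht1'⟩ := exists_rat_btwn (show max 0 (β - δ) < β from max_lt hβ (by linarith))
  obtain ⟨t2, ht2, ht2'⟩ := exists_rat_btwn (show β < β + δ by linarith)
  have hs1p : (0 : ℝ) < s1 := (le_max_left _ _).trans_lt hs1
  have ht1p : (0 : ℝ) < t1 := (le_max_left _ _).trans_lt ht1
  have hs1d : α - δ < s1 := (le_max_right _ _).trans_lt hs1
  have ht1d : β - δ < t1 := (le_max_right _ _).trans_lt ht1
  have hs2p : (0 : ℝ) < s2 := hα.trans hs2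
  have ht2p : (0 : ℝ) < t2 := hβ.trans ht2
  have d1 : dist (GG ((s1 : ℝ), (t2 : ℝ))) (GG (α, β)) < ε / 2 := by
    apply hd
    rw [Prod.dist_eq, max_lt_iff, Real.dist_eq, Real.dist_eq, abs_lt, abs_lt]
    exact ⟨⟨by linarith, by linarith⟩, ⟨by linarith, by linarith⟩⟩
  have d2 : dist (GG ((s2 : ℝ), (t1 : ℝ))) (GG (α, β)) < ε / 2 := by
    apply hd
    rw [Prod.dist_eq, max_lt_iff, Real.dist_eq, Real.dist_eq, abs_lt, abs_lt]
    exact ⟨⟨by linarith, by linarith⟩, ⟨by linarith, by linarith⟩⟩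
  have c1 := hω s1 t2 (by exact_mod_cast hs1p) (by exact_mod_cast ht2p)
  have c2 := hω s2 t1 (by exact_mod_cast hs2p) (by exact_mod_cast ht1p)
  obtain ⟨N1, hN1⟩ := Metric.tendsto_atTop.1 c1 (ε / 2) (by positivity)
  obtain ⟨N2, hN2⟩ := Metric.tendsto_atTop.1 c2 (ε / 2) (by positivity)
  refine ⟨max N1 N2, fun N hN => ?_⟩
  have e1 := hN1 N ((le_max_left _ _).trans hN)
  have e2 := hN2 N ((le_max_right _ _).trans hN)
  have m1 := LA_mono hs1'.le ht2.le ω N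
  have m2 := LA_mono hs2.le ht1'.le ω N
  rw [Real.dist_eq, abs_lt] at *
  constructor <;> linarith [d1.1, d1.2, d2.1, d2.2, e1.1, e1.2, e2.1, e2.2]

end Pool.Agent.N931.AS
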