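import Pool.Agent.N931.AS.Trunc

/-!
Decorrelation of the crossing events at distant scales; two-scale upper bound.
-/

namespace Pool.Agent.N931.AS

open Pool.Agent.H988R2.Perc hiding X
open Pool.Agent.H31C Pool.Agent.H492E Pool.Agent.H984Q Finset MeasureTheory

/-- two events, two approximations which are independent -/
theorem decor_abs {A A' B B' : Set Conf} (hA' : MeasurableSet A') (hB' : MeasurableSet B') (hAA : A' ⊆ A) (hBB : B' ⊆ B)
    (hi : perc.real (A' ∩ B') = perc.real A' * perc.real B') {x y : ℝ}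
    (hx : perc.real (A \ A') ≤ x) (hy : perc.real (B \ B') ≤ y) :
    |perc.real (A ∩ B) - perc.real A * perc.real B| ≤ x + y := by
  have hA1 : perc.real (A \ A') = perc.real A - perc.real A' := by
    rw [measureReal_sdiff hAA hA']
  have hB1 : perc.real (B \ B') = perc.real B - perc.real B' := by
    rw [measureReal_sdiff hBB hB']
  have h1 : perc.real (A' ∩ B') ≤ perc.real (A ∩ B) :=
    measureReal_mono (Set.inter_subset_inter hAA hBB)
  have h2 : perc.real (A ∩ B) ≤ perc.real (A' ∩ B') + (perc.real (A \ A') + perc.real (B \ B')) := by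
    have hs : A ∩ B ⊆ (A' ∩ B') ∪ ((A \ A') ∪ (B \ B')) := by
      rintro ω ⟨ha, hb⟩
      by_cases ha' : ω ∈ A'
      · by_cases hb' : ω ∈ B'
        · exact Or.inl ⟨ha', hb'⟩
        · exact Or.inr (Or.inr ⟨hb, hb'⟩)
      · exact Or.inr (Or.inl ⟨ha, ha'⟩)
    exact (measureReal_mono hs).trans ((measureReal_union_le _ _).trans
      (add_le_add le_rfl (measureReal_union_le _ _)))
  have p1 : 0 ≤ perc.real A' := measureReal_nonneg
  have p2 : 0 ≤ perc.real B' := measureReal_nonneg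
  have p3 : perc.real A ≤ 1 := measureReal_le_one
  have p4 : perc.real B ≤ 1 := measureReal_le_one
  have p5 : perc.real A' ≤ perc.real A := measureReal_mono hAA
  have p6 : perc.real B' ≤ perc.real B := measureReal_mono hBB
  rw [hA1] at hx h2
  rw [hB1] at hy h2
  rw [hi] at h1 h2
  rw [abs_le]
  constructor
  · nlinarith
  · nlinarith

/-- Decorrelation of the crossing events. -/
theorem decor : ∃ C γ : ℝ, 0 < C ∧ 0 < γ ∧ γ ≤ 1 ∧ ∀ a b a' b' : ℕ, 1 ≤ a → 1 ≤ b' →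
    |perc.real (CR a b ∩ CR a' b') - perc.real (CR a b) * perc.real (CR a' b')| ≤
      C * ((a : ℝ) / b') ^ γ := by
  obtain ⟨C0, β0, hC0, hβ0, h0⟩ := arm_plane
  -- replace the exponent by a smaller one
  obtain ⟨C, β, hC, hβ, hβ1, h⟩ : ∃ C β : ℝ, 0 < C ∧ 0 < β ∧ β ≤ 1 ∧
      ∀ (v : ℤ × ℤ) (r R : ℤ), 1 ≤ r → r ≤ R →
      perc.real (AR (fun _ => True) v r R) ≤ C * ((r : ℝ) / R) ^ β := by
    refine ⟨C0, min β0 1, hC0, lt_min hβ0 one_pos, min_le_right _ _, fun v r R hr hrR => ?_⟩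
    refine (h0 v r R hr hrR).trans ?_
    have hr' : (1 : ℝ) ≤ r := by exact_mod_cast hr
    have hR' : (r : ℝ) ≤ R := by exact_mod_cast hrR
    apply mul_le_mul_of_nonneg_left _ hC0.le
    apply Real.rpow_le_rpow_of_exponent_ge (div_pos (by linarith) (by linarith)) _ (min_le_left _ _)
    rw [div_le_one (by linarith)]; exact hR'
  refine ⟨max 2 (3 * C), β / 2, lt_of_lt_of_le two_pos (le_max_left _ _), by positivity, by linarith,
    fun a b a' b' ha hb => ?_⟩
  have ha1 : (1 : ℝ) ≤ a := by exact_mod_cast ha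
  have hb1 : (1 : ℝ) ≤ b' := by exact_mod_cast hb
  have hb0 : (0 : ℝ) < b' := by linarith
  have ha0 : (0 : ℝ) < a := by linarith
  by_cases hab : b' < 4 * a
  · -- trivial case
    have triv : |perc.real (CR a b ∩ CR a' b') - perc.real (CR a b) * perc.real (CR a' b')| ≤ 1 := by
      have q1 : 0 ≤ perc.real (CR a b ∩ CR a' b') := measureReal_nonneg
      have q2 : perc.real (CR a b ∩ CR a' b') ≤ 1 := measureReal_le_one
      have q3 : 0 ≤ perc.real (CR a b) * perc.real (CR a' b') :=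
        mul_nonneg measureReal_nonneg measureReal_nonneg
      have q4 : perc.real (CR a b) * perc.real (CR a' b') ≤ 1 :=
        mul_le_one₀ measureReal_le_one measureReal_nonneg measureReal_le_one
      rw [abs_le]; constructor <;> linarith
    refine triv.trans ?_
    have hab' : (b' : ℝ) < 4 * a := by exact_mod_cast hab
    have h1 : (1 / 4 : ℝ) ≤ (a : ℝ) / b' := by
      rw [le_div_iff₀ hb0]; linarith
    have h2 : (1 / 2 : ℝ) ≤ ((a : ℝ) / b') ^ (β / 2) := by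
      calc (1 / 2 : ℝ) = (1 / 4 : ℝ) ^ (1 / 2 : ℝ) := by
            rw [show (1 / 4 : ℝ) = (1 / 2) ^ (2 : ℝ) by norm_num, ← Real.rpow_mul (by norm_num)]
            norm_num
        _ ≤ (1 / 4 : ℝ) ^ (β / 2) :=
            Real.rpow_le_rpow_of_exponent_ge (by norm_num) (by norm_num) (by linarith)
        _ ≤ _ := Real.rpow_le_rpow (by norm_num) h1 (by positivity)
    have h3 : (2 : ℝ) ≤ max 2 (3 * C) := le_max_left _ _
    nlinarith
  · have hab' : 4 * (a : ℝ) ≤ b' := by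
      have : 4 * a ≤ b' := by omega
      exact_mod_cast this
    set ρ : ℕ := Nat.sqrt (a * b') with hρ
    have r1 : ρ * ρ ≤ a * b' := Nat.sqrt_le _
    have r2 : a * b' < (ρ + 1) * (ρ + 1) := Nat.lt_succ_sqrt _
    have r3 : a ≤ ρ := by
      rw [hρ, Nat.le_sqrt]
      apply Nat.mul_le_mul_left
      omega
    have R1 : (ρ : ℝ) * ρ ≤ a * b' := by exact_mod_cast r1
    have R2 : (a : ℝ) * b' < (ρ + 1) * (ρ + 1) := by exact_mod_cast r2
    have R3 : (a : ℝ) ≤ ρ := by exact_mod_cast r3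
    set t : ℝ := Real.sqrt ((a : ℝ) / b') with ht
    have ht0 : 0 < t := Real.sqrt_pos.2 (div_pos ha0 hb0)
    have ht2 : t * t = (a : ℝ) / b' := Real.mul_self_sqrt (div_pos ha0 hb0).le
    have htb : t * t * b' = a := by rw [ht2]; field_simp
    have tpow : t ^ β = ((a : ℝ) / b') ^ (β / 2) := by
      rw [ht, Real.sqrt_eq_rpow, ← Real.rpow_mul (div_pos ha0 hb0).le]
      congr 1; ring
    -- `t b' = √(a b')`
    have hs1 : (ρ : ℝ) ≤ t * b' := by
      by_contra hc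
      push Not at hc
      have : (t * b') * (t * b') < ρ * ρ := mul_self_lt_mul_self (by positivity) hc
      nlinarith
    have hs2 : t * b' < ρ + 1 := by
      by_contra hc
      push Not at hc
      have : ((ρ : ℝ) + 1) * (ρ + 1) ≤ (t * b') * (t * b') :=
        mul_self_le_mul_self (by positivity) hc
      nlinarith
    have ht1 : t ≤ 1 / 2 := by
      by_contra hc
      push Not at hc
      have : (1 / 2 : ℝ) * (1 / 2) < t * t := mul_self_lt_mul_self (by norm_num) hc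
      nlinarith
    set M : ℤ := ((b' : ℤ) + 2) / 2 with hM
    have hM2 : 2 * M ≤ b' + 2 := by omega
    have hM1 : (b' : ℤ) + 1 ≤ 2 * M := by omega
    have hM1' : (b' : ℝ) + 1 ≤ 2 * M := by exact_mod_cast hM1
    have hρM : (ρ : ℤ) ≤ M := by
      have h1 : (ρ : ℝ) ≤ M := by nlinarith
      exact_mod_cast h1
    have hx : perc.real (CR a b \ res (Ed ρ) ⁻¹' CR a b) ≤ C * ((a : ℝ) / b') ^ (β / 2) := by
      refine (measureReal_mono trunc_out).trans ?_
      refine (h (0, 0) a (ρ + 1) (by exact_mod_cast ha) (by omega)).trans ?_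
      apply mul_le_mul_of_nonneg_left _ hC.le
      rw [← tpow]
      apply Real.rpow_le_rpow (by positivity) _ hβ.le
      push_cast
      rw [div_le_iff₀ (by positivity)]
      nlinarith
    have hy : perc.real (CR a' b' \ res (Ed ρ)ᶜ ⁻¹' CR a' b') ≤
        2 * C * ((a : ℝ) / b') ^ (β / 2) := by
      refine (measureReal_mono (trunc_in hM2)).trans ?_
      refine (h (0, 0) ρ M (by omega) hρM).trans ?_
      rw [← tpow]
      have hMpos : (0 : ℝ) < M := by linarith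
      have h1 : ((ρ : ℝ) / M) ^ β ≤ (2 * t) ^ β := by
        apply Real.rpow_le_rpow (by positivity) _ hβ.le
        rw [div_le_iff₀ hMpos]
        nlinarith
      have h2 : (2 * t) ^ β ≤ 2 * t ^ β := by
        rw [Real.mul_rpow (by norm_num) ht0.le]
        apply mul_le_mul_of_nonneg_right _ (Real.rpow_nonneg ht0.le _)
        calc (2 : ℝ) ^ β ≤ (2 : ℝ) ^ (1 : ℝ) :=
              Real.rpow_le_rpow_of_exponent_le (by norm_num) hβ1
          _ = 2 := Real.rpow_one 2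
      calc C * (((ρ : ℤ) : ℝ) / M) ^ β = C * ((ρ : ℝ) / M) ^ β := by push_cast; rfl
        _ ≤ C * (2 * t ^ β) := mul_le_mul_of_nonneg_left (h1.trans h2) hC.le
        _ = 2 * C * t ^ β := by ring
    have h5 := decor_abs (res_meas _ (cr_meas a b)) (res_meas _ (cr_meas a' b')) cr_res cr_res
      (res_indep (disjoint_compl_right (a := Ed (ρ : ℤ))) (cr_meas a b) (cr_meas a' b')) hx hy
    refine h5.trans ?_
    have h6 : 3 * C ≤ max 2 (3 * C) := le_max_right _ _
    have h7 : 0 ≤ ((a : ℝ) / b') ^ (β / 2) := by positivity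
    nlinarith

theorem arm_half' : ∃ C : ℝ, 1 ≤ C ∧ ∀ (a : ℕ) (r R : ℤ), 1 ≤ r → 1 ≤ R →
    perc.real (AR (HP a) (-(a : ℤ), 0) r R) ≤ C * ((r : ℝ) / R) ^ (1 / 3 : ℝ) := by
  obtain ⟨C, hC, h⟩ := arm_half
  refine ⟨max 1 C, le_max_left _ _, fun a r R h1 h2 => ?_⟩
  have hr : (1 : ℝ) ≤ r := by exact_mod_cast h1
  have hR : (1 : ℝ) ≤ R := by exact_mod_cast h2
  have hrR : (0 : ℝ) < (r : ℝ) / R := div_pos (by linarith) (by linarith)
  rcases le_or_gt r R with h3 | h3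
  · exact (h a r R h1 h3).trans (mul_le_mul_of_nonneg_right (le_max_right _ _)
      (Real.rpow_nonneg hrR.le _))
  · have h4 : (R : ℝ) ≤ r := by exact_mod_cast h3.le
    have h5 : 1 ≤ ((r : ℝ) / R) ^ (1 / 3 : ℝ) :=
      Real.one_le_rpow (by rw [le_div_iff₀ (by linarith)]; linarith) (by norm_num)
    have h6 : (1 : ℝ) ≤ max 1 C := le_max_left _ _
    have h7 : perc.real (AR (HP a) (-(a : ℤ), 0) r R) ≤ 1 := measureReal_le_one
    nlinarith

/-- Two scales: upper bound. -/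
theorem two_scale : ∃ C : ℝ, 0 < C ∧ ∀ (a b a' b' : ℕ), 1 ≤ a → 2 * a ≤ a' →
    perc.real (CR a b ∩ CR a' b') ≤
      C * ((a : ℝ) / (a + b) + a / a') ^ (1 / 3 : ℝ) * ((a' : ℝ) / (a' + b')) ^ (1 / 3 : ℝ) := by
  obtain ⟨C, hC, h⟩ := arm_half'
  refine ⟨2 * C ^ 2, by positivity, fun a b a' b' ha haa => ?_⟩
  have ha1 : (1 : ℝ) ≤ a := by exact_mod_cast ha
  have haa' : 2 * (a : ℝ) ≤ a' := by exact_mod_cast haa
  have hb0 : (0 : ℝ) ≤ b := Nat.cast_nonneg b
  have hb0' : (0 : ℝ) ≤ b' := Nat.cast_nonneg b'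
  have hsub : CR a b ∩ CR a' b' ⊆
      res (Ed (a' : ℤ)) ⁻¹' AR (HP a) (-(a : ℤ), 0) a (min (((a : ℤ) + b + 2) / 2) (a' - a)) ∩
      res (Ed (a' : ℤ))ᶜ ⁻¹' AR (HP a') (-(a' : ℤ), 0) (a' + a') (((a' : ℤ) + b' + 2) / 2) :=
    Set.inter_subset_inter (arm_in (by omega) (by omega)) (arm_out (by omega) (by omega))
  refine (measureReal_mono hsub).trans ?_
  rw [res_indep (disjoint_compl_right (a := Ed (a' : ℤ))) (ar_meas _ _ _ _) (ar_meas _ _ _ _)]
  have k1 := (measureReal_mono (μ := perc) (ar_res (H := HP a) (v := (-(a : ℤ), 0)) (r := a)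
    (R := min (((a : ℤ) + b + 2) / 2) (a' - a)) (S := Ed (a' : ℤ)))).trans
    (h a a (min (((a : ℤ) + b + 2) / 2) (a' - a)) (by exact_mod_cast ha) (by omega))
  have k2 := (measureReal_mono (μ := perc) (ar_res (H := HP a') (v := (-(a' : ℤ), 0))
    (r := a' + a') (R := ((a' : ℤ) + b' + 2) / 2) (S := (Ed (a' : ℤ))ᶜ))).trans
    (h a' (a' + a') (((a' : ℤ) + b' + 2) / 2) (by omega) (by omega))
  have m1 : (((a : ℤ) : ℝ) / ((min (((a : ℤ) + b + 2) / 2) (a' - a) : ℤ) : ℝ)) ≤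
      2 * ((a : ℝ) / (a + b) + a / a') := by
    rcases min_choice (((a : ℤ) + b + 2) / 2) ((a' : ℤ) - a) with hm | hm
    · rw [hm]
      have e1 : ((a : ℤ) + b + 1) ≤ 2 * (((a : ℤ) + b + 2) / 2) := by omega
      have e2 : ((a : ℝ) + b + 1) ≤ 2 * ((((a : ℤ) + b + 2) / 2 : ℤ) : ℝ) := by exact_mod_cast e1
      have e3 : ((a : ℤ) : ℝ) / ((((a : ℤ) + b + 2) / 2 : ℤ) : ℝ) ≤ 2 * ((a : ℝ) / (a + b)) := by
        rw [← mul_div_assoc, div_le_div_iff₀ (by linarith) (by linarith)]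
        push_cast
        nlinarith
      have e4 : (0 : ℝ) ≤ a / a' := by positivity
      linarith
    · rw [hm]
      have e3 : ((a : ℤ) : ℝ) / ((((a' : ℤ) - a : ℤ)) : ℝ) ≤ 2 * ((a : ℝ) / a') := by
        push_cast
        rw [← mul_div_assoc, div_le_div_iff₀ (by linarith) (by linarith)]
        nlinarith
      have e4 : (0 : ℝ) ≤ a / (a + b) := by positivity
      linarith
  have m2 : (((a' + a' : ℤ) : ℝ) / ((((a' : ℤ) + b' + 2) / 2 : ℤ) : ℝ)) ≤
      4 * ((a' : ℝ) / (a' + b')) := by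
    have e1 : ((a' : ℤ) + b' + 1) ≤ 2 * (((a' : ℤ) + b' + 2) / 2) := by omega
    have e2 : ((a' : ℝ) + b' + 1) ≤ 2 * ((((a' : ℤ) + b' + 2) / 2 : ℤ) : ℝ) := by exact_mod_cast e1
    rw [← mul_div_assoc, div_le_div_iff₀ (by linarith) (by linarith)]
    push_cast
    nlinarith
  have m0 : (0 : ℝ) ≤ ((a : ℤ) : ℝ) / ((min (((a : ℤ) + b + 2) / 2) (a' - a) : ℤ) : ℝ) := by
    apply div_nonneg (by positivity)
    have : (0 : ℤ) ≤ min (((a : ℤ) + b + 2) / 2) (a' - a) := by omega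
    exact_mod_cast this
  have m0' : (0 : ℝ) ≤ (((a' + a' : ℤ) : ℝ) / ((((a' : ℤ) + b' + 2) / 2 : ℤ) : ℝ)) := by
    apply div_nonneg (by positivity)
    have : (0 : ℤ) ≤ ((a' : ℤ) + b' + 2) / 2 := by omega
    exact_mod_cast this
  set x : ℝ := (a : ℝ) / (a + b) + a / a' with hx
  set y : ℝ := (a' : ℝ) / (a' + b') with hy
  have hx0 : 0 ≤ x := by positivity
  have hy0 : 0 ≤ y := by positivity
  have n1 := Real.rpow_le_rpow m0 m1 (by norm_num : (0 : ℝ) ≤ 1 / 3)
  have n2 := Real.rpow_le_rpow m0' m2 (by norm_num : (0 : ℝ) ≤ 1 / 3)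
  rw [Real.mul_rpow (by norm_num) hx0] at n1
  rw [Real.mul_rpow (by norm_num) hy0] at n2
  have e8 : (2 : ℝ) ^ (1 / 3 : ℝ) * (4 : ℝ) ^ (1 / 3 : ℝ) = 2 := by
    rw [← Real.mul_rpow (by norm_num) (by norm_num), show (2 : ℝ) * 4 = 2 ^ (3 : ℝ) by norm_num,
      ← Real.rpow_mul (by norm_num)]
    norm_num
  calc _ ≤ (C * (2 ^ (1 / 3 : ℝ) * x ^ (1 / 3 : ℝ))) * (C * (4 ^ (1 / 3 : ℝ) * y ^ (1 / 3 : ℝ))) :=
        mul_le_mul (k1.trans (mul_le_mul_of_nonneg_left n1 (by linarith)))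
          (k2.trans (mul_le_mul_of_nonneg_left n2 (by linarith))) measureReal_nonneg (by positivity)
    _ = C ^ 2 * (2 ^ (1 / 3 : ℝ) * 4 ^ (1 / 3 : ℝ)) * x ^ (1 / 3 : ℝ) * y ^ (1 / 3 : ℝ) := by ring
    _ = _ := by rw [e8]; ring

end Pool.Agent.N931.AS
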