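import Pool.Agent.N931.AS.Test

/-!
Integral test on both sides, for general threshold functions.
-/

namespace Pool.Agent.N931.AS

open Pool.Agent.H988R2.Perc hiding X
open Pool.Agent.H31C Pool.Agent.H492E Pool.Agent.H984Q Finset MeasureTheory Filter Topology
open Pool.Agent.H863R4 Pool.Agent.H757R2.CardyLimit Pool.Agent.H980R4.Rate

/-! ## the left side: duality -/

theorem tr_mir (k l : ℕ) (ω : Conf) :
    tr l (mir (((2 * k + 1 + (2 * l + 1) + 2) / 2 : ℕ) : ℤ) ω) = mir 1 (tr k ω) := by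
  have hK : (((2 * k + 1 + (2 * l + 1) + 2) / 2 : ℕ) : ℤ) = k + l + 2 := by
    have : (2 * k + 1 + (2 * l + 1) + 2) / 2 = k + l + 2 := by omega
    rw [this]; push_cast; ring
  rw [hK]
  funext e
  obtain ⟨u, v, c⟩ := e
  cases c
  · show (!(ω (v - l + (k + l + 2) - 1, u + (l + 1) + 1 - (k + l + 2), false))) =
      !(ω (v + 1 - 1 + (k + 1), u + 1 - 1 - k, false))
    rw [show v - (l : ℤ) + (k + l + 2) - 1 = v + 1 - 1 + (k + 1) by ring,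
      show u + ((l : ℤ) + 1) + 1 - (k + l + 2) = u + 1 - 1 - k by ring]
  · show (!(ω (v - l + (k + l + 2), u + (l + 1) - (k + l + 2), true))) =
      !(ω (v + 1 + (k + 1), u - 1 - k, true))
    rw [show v - (l : ℤ) + (k + l + 2) = v + 1 + (k + 1) by ring,
      show u + ((l : ℤ) + 1) - (k + l + 2) = u - 1 - k by ring]

theorem left_sub_cr {a b : ℕ} (ha : Odd a) (hb : Odd b) :
    LeftFirst a b ⊆ mir 1 ⁻¹' CR b a := by
  intro ω hω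
  obtain ⟨k, rfl⟩ := ha
  obtain ⟨ω', rfl⟩ := tr_surj k ω
  have h1 := left_sub k b hb ω' hω
  obtain ⟨l, rfl⟩ := hb
  have h2 := (cross_iff l (2 * k + 1) _).1 h1
  rw [tr_mir] at h2
  exact h2

theorem mir_real {A : Set Conf} (hA : MeasurableSet A) : perc.real (mir 1 ⁻¹' A) = perc.real A := by
  have h := Measure.map_apply (μ := perc) (E3_meas 1) hA
  rw [E3_map] at h
  rw [measureReal_def, measureReal_def, h]

theorem left_prob {a b : ℕ} (ha : Odd a) (hb : Odd b) :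
    perc.real (LeftFirst a b) = perc.real (RightFirst b a) := by
  rw [(exact_all exact_cardy a b ha hb).2.1, (exact_all exact_cardy b a hb ha).1,
    show b + a + 1 = a + b + 1 by ring]

theorem left_ae {a b : ℕ} (ha : Odd a) (hb : Odd b) :
    LeftFirst a b =ᵐ[perc] mir 1 ⁻¹' CR b a := by
  refine ae_eq_of_subset_of_measure_ge (left_sub_cr ha hb) ?_ (m_events a b).2.nullMeasurableSet
    (measure_ne_top _ _)
  have h : perc.real (mir 1 ⁻¹' CR b a) = perc.real (LeftFirst a b) := by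
    rw [mir_real (cr_meas b a), cr_prob hb ha, left_prob ha hb]
  rw [measureReal_def, measureReal_def] at h
  exact ((ENNReal.toReal_eq_toReal_iff' (measure_ne_top _ _) (measure_ne_top _ _)).1 h).le

theorem mono_left (a b a' b' : ℕ) (h : a' ≤ a) (h' : b ≤ b') :
    LeftFirst a b ⊆ LeftFirst a' b' := by
  rintro ω ⟨n, h1, h2⟩
  refine ⟨n, by omega, fun m hm => ?_⟩
  have h3 := h2 m hm
  omega

theorem lf_upper : ∃ C : ℝ, 0 < C ∧ ∀ a b : ℕ, 1 ≤ a → 1 ≤ b →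
    perc.real (LeftFirst b a) ≤ C * ((a : ℝ) / (a + b)) ^ (1 / 3 : ℝ) := by
  obtain ⟨C, hC, h⟩ := rf_upper
  refine ⟨C * 4 ^ (1 / 3 : ℝ), by positivity, fun a b ha hb => ?_⟩
  have pa : (1:ℝ) ≤ a := by exact_mod_cast ha
  have pb : (1:ℝ) ≤ b := by exact_mod_cast hb
  refine (measureReal_mono (mono_left b a (od b) (ou a) (od_le (by omega)) (le_ou a))).trans ?_
  rw [left_prob (od_odd b) (ou_odd a)]
  refine (h _ _ (ou_odd a).pos (od_odd b).pos).trans ?_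
  rw [mul_assoc, ← Real.mul_rpow (by norm_num) (by positivity)]
  apply mul_le_mul_of_nonneg_left _ hC.le
  apply Real.rpow_le_rpow (by positivity) _ (by norm_num)
  have h1 := (abs_le.1 (ou_dist a)).2
  have h2 := (abs_le.1 (od_dist b)).1
  have h3 : (a : ℝ) ≤ ou a := by exact_mod_cast le_ou a
  have h4 : (1 : ℝ) ≤ od b := by exact_mod_cast (od_odd b).pos
  rw [← mul_div_assoc, div_le_div_iff₀ (by linarith) (by linarith)]
  have h5 : (a : ℝ) + b ≤ 2 * (ou a + od b) := by linarith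
  have h6 : (ou a : ℝ) ≤ 2 * a := by linarith
  calc (ou a : ℝ) * (a + b) ≤ (2 * a) * (2 * (ou a + od b)) :=
        mul_le_mul h6 h5 (by linarith) (by linarith)
    _ = _ := by ring

/-! ## threshold functions -/

/-- the terms of the series of the test -/
noncomputable def tf (ψ : ℕ → ℝ) (n : ℕ) : ℝ := (n : ℝ)⁻¹ * (ψ n) ^ (-(1 / 3) : ℝ)

theorem cond_iff {ψ : ℕ → ℝ} (hm : Monotone ψ) (h1 : ∀ n, 1 ≤ ψ n) :
    Summable (fun k : ℕ => (ψ (2 ^ k)) ^ (-(1 / 3) : ℝ)) ↔ Summable (tf ψ) := by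
  have hpos : ∀ n, 0 < ψ n := fun n => lt_of_lt_of_le one_pos (h1 n)
  rw [← summable_condensed_iff_of_nonneg (f := tf ψ)]
  · refine summable_congr fun k => ?_
    unfold tf
    push_cast
    rw [← mul_assoc, mul_inv_cancel₀ (by positivity), one_mul]
  · intro n
    unfold tf
    have := hpos n
    positivity
  · intro m n hm0 hmn
    unfold tf
    have hm' : (0 : ℝ) < m := by exact_mod_cast hm0
    have hmn' : (m : ℝ) ≤ n := by exact_mod_cast hmn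
    apply mul_le_mul (inv_anti₀ hm' hmn') _ (by have := hpos n; positivity) (by positivity)
    exact Real.rpow_le_rpow_of_nonpos (hpos m) (hm hmn) (by norm_num)

/-- convergence part -/
theorem conv_test {V : ℕ → ℕ → Set Conf}
    (hV : ∀ a b a' b' : ℕ, a ≤ a' → b' ≤ b → V a b ⊆ V a' b')
    (hup : ∃ C : ℝ, 0 < C ∧ ∀ a b : ℕ, 1 ≤ a → 1 ≤ b →
      perc.real (V a b) ≤ C * ((a : ℝ) / (a + b)) ^ (1 / 3 : ℝ))
    {ψ : ℕ → ℝ} (hm : Monotone ψ) (h1 : ∀ n, 1 ≤ ψ n) (hs : Summable (tf ψ)) :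
    ∀ᵐ ω ∂perc, ∀ᶠ n : ℕ in atTop, ω ∉ V n ⌈(n : ℝ) * ψ n⌉₊ := by
  obtain ⟨C, hC, hup⟩ := hup
  have hs' := (cond_iff hm h1).2 hs
  have hpos : ∀ n, 0 < ψ n := fun n => lt_of_lt_of_le one_pos (h1 n)
  have hbc : ∀ᵐ ω ∂perc, ∀ᶠ k : ℕ in atTop, ω ∉ V (2 ^ (k + 1)) ⌈(2 : ℝ) ^ k * ψ (2 ^ k)⌉₊ := by
    apply ae_eventually_notMem
    have hs2 : Summable fun k : ℕ => C * 2 ^ (1 / 3 : ℝ) * (ψ (2 ^ k)) ^ (-(1 / 3) : ℝ) :=
      hs'.mul_left _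
    refine ne_top_of_le_ne_top hs2.tsum_ofReal_ne_top (ENNReal.tsum_le_tsum fun k => ?_)
    rw [← ofReal_measureReal (measure_ne_top _ _)]
    apply ENNReal.ofReal_le_ofReal
    have hp : (0 : ℝ) < 2 ^ k := by positivity
    have hψ := hpos (2 ^ k)
    refine (hup _ _ Nat.one_le_two_pow (Nat.ceil_pos.2 (by positivity))).trans ?_
    rw [mul_assoc]
    apply mul_le_mul_of_nonneg_left _ hC.le
    rw [Real.rpow_neg hψ.le, ← Real.inv_rpow hψ.le, ← Real.mul_rpow (by norm_num) (by positivity)]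
    apply Real.rpow_le_rpow (by positivity) _ (by norm_num)
    have hce := Nat.le_ceil ((2 : ℝ) ^ k * ψ (2 ^ k))
    rw [← div_eq_mul_inv, div_le_div_iff₀ (by positivity) hψ]
    push_cast
    rw [pow_succ]
    have : (0 : ℝ) < 2 ^ k * 2 := by positivity
    nlinarith
  filter_upwards [hbc] with ω hω
  have hlog : Tendsto (fun n : ℕ => Nat.log 2 n) atTop atTop := by
    rw [tendsto_atTop]
    intro b
    filter_upwards [eventually_ge_atTop (2 ^ b)] with N hN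
    exact Nat.le_log_of_pow_le (by norm_num) hN
  filter_upwards [hlog.eventually hω, eventually_ge_atTop 1] with n hn hn1
  intro hc
  apply hn
  have e1 : 2 ^ Nat.log 2 n ≤ n := Nat.pow_log_le_self 2 (by omega)
  have e2 : n < 2 ^ (Nat.log 2 n + 1) := Nat.lt_pow_succ_log_self (by norm_num) n
  refine hV _ _ _ _ e2.le ?_ hc
  apply Nat.ceil_le_ceil
  have e3 : ((2 : ℝ) ^ Nat.log 2 n) ≤ n := by exact_mod_cast e1
  exact mul_le_mul e3 (hm e1) (hpos _).le (by positivity)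

/-- divergence part -/
theorem div_test {V : ℕ → ℕ → Set Conf}
    (hV : ∀ a b a' b' : ℕ, a ≤ a' → b' ≤ b → V a b ⊆ V a' b')
    (hio : ∀ b : ℕ → ℕ, (∀ k, Odd (b k)) → (∀ k, 2 ^ k ≤ b k) →
      (¬ Summable fun k : ℕ => (((2 ^ (k + 1) - 1 : ℕ) : ℝ) /
        (((2 ^ (k + 1) - 1 : ℕ) : ℝ) + b k)) ^ (1 / 3 : ℝ)) →
      ∀ᵐ ω ∂perc, ∃ᶠ k in atTop, ω ∈ V (2 ^ (k + 1) - 1) (b k))
    {ψ : ℕ → ℝ} (hm : Monotone ψ) (h1 : ∀ n, 1 ≤ ψ n) (hs : ¬ Summable (tf ψ)) :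
    ∀ᵐ ω ∂perc, ∃ᶠ n : ℕ in atTop, ω ∈ V n ⌈(n : ℝ) * ψ n⌉₊ := by
  have hpos : ∀ n, 0 < ψ n := fun n => lt_of_lt_of_le one_pos (h1 n)
  have hs' : ¬ Summable (fun k : ℕ => (ψ (2 ^ (k + 1))) ^ (-(1 / 3) : ℝ)) := by
    intro h
    apply hs
    rw [← cond_iff hm h1]
    exact (summable_nat_add_iff 1).1 h
  have hce : ∀ k : ℕ, (2 : ℝ) ^ (k + 1) * ψ (2 ^ (k + 1)) ≤
      (⌈(2 : ℝ) ^ (k + 1) * ψ (2 ^ (k + 1))⌉₊ : ℝ) := fun k => Nat.le_ceil _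
  have hpow : ∀ k : ℕ, (2 : ℝ) ^ (k + 1) ≤ (⌈(2 : ℝ) ^ (k + 1) * ψ (2 ^ (k + 1))⌉₊ : ℝ) := by
    intro k
    have h2 := h1 (2 ^ (k + 1))
    have h3 : (0 : ℝ) < 2 ^ (k + 1) := by positivity
    nlinarith [hce k]
  have h := hio (fun k => ou ⌈(2 : ℝ) ^ (k + 1) * ψ (2 ^ (k + 1))⌉₊) (fun k => ou_odd _) ?_ ?_
  · filter_upwards [h] with ω hω
    have ht : Tendsto (fun k : ℕ => 2 ^ (k + 1)) atTop atTop :=
      (tendsto_add_atTop_iff_nat 1).2 (tendsto_pow_atTop_atTop_of_one_lt (by norm_num))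
    refine ht.frequently (p := fun n : ℕ => ω ∈ V n ⌈(n : ℝ) * ψ n⌉₊) ?_
    refine hω.mono fun k hk => ?_
    refine hV _ _ _ _ (Nat.sub_le _ _) ?_ hk
    push_cast
    exact le_ou _
  · intro k
    have h2 : 2 ^ k ≤ ⌈(2 : ℝ) ^ (k + 1) * ψ (2 ^ (k + 1))⌉₊ := by
      have h3 : (2 : ℝ) ^ k ≤ (⌈(2 : ℝ) ^ (k + 1) * ψ (2 ^ (k + 1))⌉₊ : ℝ) :=
        (pow_le_pow_right₀ (by norm_num) (by omega)).trans (hpow k)
      exact_mod_cast h3
    exact h2.trans (le_ou _)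
  · intro hsum
    apply hs'
    have hsum' := hsum.mul_left ((12 : ℝ) ^ (1 / 3 : ℝ))
    refine Summable.of_nonneg_of_le (fun k => by have := hpos (2 ^ (k + 1)); positivity)
      (fun k => ?_) hsum'
    have hψ := hpos (2 ^ (k + 1))
    have hψ1 := h1 (2 ^ (k + 1))
    rw [Real.rpow_neg hψ.le, ← Real.inv_rpow hψ.le, ← Real.mul_rpow (by norm_num) (by positivity)]
    apply Real.rpow_le_rpow (by positivity) _ (by norm_num)
    have hp : (1 : ℝ) ≤ 2 ^ k := one_le_pow₀ (by norm_num)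
    have n1 : ((2 ^ (k + 1) - 1 : ℕ) : ℝ) = 2 ^ (k + 1) - 1 := by
      rw [Nat.cast_sub Nat.one_le_two_pow]; push_cast; ring
    have n2 : (2 : ℝ) ^ (k + 1) = 2 * 2 ^ k := by rw [pow_succ]; ring
    have h5 := (abs_le.1 (ou_dist ⌈(2 : ℝ) ^ (k + 1) * ψ (2 ^ (k + 1))⌉₊)).2
    have h6 := Nat.ceil_lt_add_one (show 0 ≤ (2 : ℝ) ^ (k + 1) * ψ (2 ^ (k + 1)) by positivity)
    have h7 : (2 : ℝ) ^ (k + 1) ≤ (ou ⌈(2 : ℝ) ^ (k + 1) * ψ (2 ^ (k + 1))⌉₊ : ℝ) :=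
      (hpow k).trans (by exact_mod_cast le_ou _)
    rw [n1]
    set B : ℝ := (ou ⌈(2 : ℝ) ^ (k + 1) * ψ (2 ^ (k + 1))⌉₊ : ℝ) with hB
    rw [inv_eq_one_div, ← mul_div_assoc, div_le_div_iff₀ hψ (by linarith)]
    have h8 : B ≤ 2 ^ (k + 1) * ψ (2 ^ (k + 1)) + 2 := by linarith
    rw [n2] at h8 h7 ⊢
    nlinarith [mul_nonneg (sub_nonneg.2 hp) (sub_nonneg.2 hψ1)]

theorem rf_io (b : ℕ → ℕ) (hodd : ∀ k, Odd (b k)) (hb : ∀ k, 2 ^ k ≤ b k)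
    (hns : ¬ Summable fun k : ℕ => (((2 ^ (k + 1) - 1 : ℕ) : ℝ) /
      (((2 ^ (k + 1) - 1 : ℕ) : ℝ) + b k)) ^ (1 / 3 : ℝ)) :
    (∀ᵐ ω ∂perc, ∃ᶠ k in atTop, ω ∈ RightFirst (2 ^ (k + 1) - 1) (b k)) ∧
    (∀ᵐ ω ∂perc, ∃ᶠ k in atTop, ω ∈ LeftFirst (b k) (2 ^ (k + 1) - 1)) := by
  have h := cr_io hodd hb hns
  have hodda : ∀ k : ℕ, Odd (2 ^ (k + 1) - 1) := by
    intro k
    rw [Nat.odd_iff, pow_succ]
    have : 1 ≤ 2 ^ k := Nat.one_le_two_pow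
    omega
  constructor
  · have h2 : ∀ᵐ ω ∂perc, ∀ k, (ω ∈ RightFirst (2 ^ (k + 1) - 1) (b k) ↔
        ω ∈ CR (2 ^ (k + 1) - 1) (b k)) :=
      ae_all_iff.2 fun k => Filter.eventuallyEq_set.1 (right_ae (hodda k) (hodd k))
    filter_upwards [h, h2] with ω h3 h4
    exact h3.mono fun k hk => (h4 k).2 hk
  · have h2 : ∀ᵐ ω ∂perc, ∀ k, (ω ∈ LeftFirst (b k) (2 ^ (k + 1) - 1) ↔
        ω ∈ mir 1 ⁻¹' CR (2 ^ (k + 1) - 1) (b k)) :=
      ae_all_iff.2 fun k => Filter.eventuallyEq_set.1 (left_ae (hodd k) (hodda k))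
    have h3 : ∀ᵐ ω ∂perc, ∃ᶠ k in atTop, mir 1 ω ∈ CR (2 ^ (k + 1) - 1) (b k) := by
      have h5 : ∀ᵐ ω ∂(perc.map (mir 1)), ∃ᶠ k in atTop, ω ∈ CR (2 ^ (k + 1) - 1) (b k) := by
        rw [E3_map]; exact h
      exact ae_of_ae_map (E3_meas 1).aemeasurable h5
    filter_upwards [h2, h3] with ω h4 h5
    exact h5.mono fun k hk => (h4 k).2 hk

theorem test_right {ψ : ℕ → ℝ} (hm : Monotone ψ) (h1 : ∀ n, 1 ≤ ψ n) :
    (Summable (tf ψ) → ∀ᵐ ω ∂perc, ∀ᶠ n : ℕ in atTop, ω ∉ RightFirst n ⌈(n : ℝ) * ψ n⌉₊) ∧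
    (¬ Summable (tf ψ) → ∀ᵐ ω ∂perc, ∃ᶠ n : ℕ in atTop, ω ∈ RightFirst n ⌈(n : ℝ) * ψ n⌉₊) :=
  ⟨conv_test (V := RightFirst) mono_right rf_upper hm h1,
    div_test (V := RightFirst) mono_right (fun b h2 h3 h4 => (rf_io b h2 h3 h4).1) hm h1⟩

theorem test_left {ψ : ℕ → ℝ} (hm : Monotone ψ) (h1 : ∀ n, 1 ≤ ψ n) :
    (Summable (tf ψ) → ∀ᵐ ω ∂perc, ∀ᶠ n : ℕ in atTop, ω ∉ LeftFirst ⌈(n : ℝ) * ψ n⌉₊ n) ∧
    (¬ Summable (tf ψ) → ∀ᵐ ω ∂perc, ∃ᶠ n : ℕ in atTop, ω ∈ LeftFirst ⌈(n : ℝ) * ψ n⌉₊ n) :=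
  ⟨conv_test (V := fun a b => LeftFirst b a)
      (fun a b a' b' h h' => mono_left b a b' a' h' h) lf_upper hm h1,
    div_test (V := fun a b => LeftFirst b a)
      (fun a b a' b' h h' => mono_left b a b' a' h' h)
      (fun b h2 h3 h4 => (rf_io b h2 h3 h4).2) hm h1⟩

end Pool.Agent.N931.AS
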