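import Pool.Agent.N931.AS.LogAvg

/-!
A second-moment (Kochen–Stone) lower bound for the probability of a limit superior.
-/

namespace Pool.Agent.N931.AS

open Finset MeasureTheory ProbabilityTheory Filter Topology

variable {Ω : Type*} [MeasurableSpace Ω] {μ : Measure Ω} [IsProbabilityMeasure μ]

/-- number of occurrences -/
noncomputable def Nc (A : ℕ → Set Ω) (n : ℕ) (ω : Ω) : ℝ :=
  ∑ k ∈ range n, (A k).indicator (fun _ => (1 : ℝ)) ω

theorem Nc_memLp {A : ℕ → Set Ω} (hA : ∀ n, MeasurableSet (A n)) (n : ℕ) :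
    MemLp (Nc A n) 2 μ := by
  unfold Nc
  exact memLp_finsetSum _ fun k _ => ind_memLp (hA k)

omit [IsProbabilityMeasure μ] in
theorem int_ind {A : Set Ω} (hA : MeasurableSet A) :
    ∫ ω, A.indicator (fun _ => (1 : ℝ)) ω ∂μ = μ.real A := by
  rw [integral_indicator_const _ hA]; simp

omit [IsProbabilityMeasure μ] in
theorem int_ind2 {A B : Set Ω} (hA : MeasurableSet A) (hB : MeasurableSet B) :
    ∫ ω, A.indicator (fun _ => (1 : ℝ)) ω * B.indicator (fun _ => (1 : ℝ)) ω ∂μ =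
      μ.real (A ∩ B) := by
  rw [← int_ind (μ := μ) (hA.inter hB)]
  congr 1
  funext ω
  by_cases ha : ω ∈ A <;> by_cases hb : ω ∈ B <;> simp [ha, hb]

theorem geom_sum_le' {r : ℝ} (hr0 : 0 ≤ r) (hr1 : r < 1) (n : ℕ) :
    ∑ j ∈ range n, r ^ (n - j) ≤ 1 / (1 - r) := by
  have h1 : ∑ j ∈ range n, r ^ (n - j) = ∑ j ∈ range n, r ^ (j + 1) := by
    rw [← Finset.sum_range_reflect]
    apply Finset.sum_congr rfl
    intro j hj
    have := Finset.mem_range.1 hj
    congr 1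
    omega
  have h2 : ∀ n : ℕ, ∑ j ∈ range n, r ^ (j + 1) ≤ (1 - r ^ n) / (1 - r) := by
    intro n
    induction n with
    | zero => simp
    | succ n ih =>
      rw [Finset.sum_range_succ]
      have h3 : 0 < 1 - r := by linarith
      rw [le_div_iff₀ h3] at ih ⊢
      have h4 : 0 ≤ r ^ n := pow_nonneg hr0 n
      rw [pow_succ]
      nlinarith [mul_nonneg h4 (sq_nonneg (1 - r))]
  rw [h1]
  refine (h2 n).trans ?_
  apply div_le_div_of_nonneg_right _ (by linarith)
  have : 0 ≤ r ^ n := pow_nonneg hr0 n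
  linarith

theorem Nc_sq {A : ℕ → Set Ω} (hA : ∀ n, MeasurableSet (A n)) {q : ℕ → ℝ} (hq : ∀ k, 0 ≤ q k)
    {C r : ℝ} (hC : 0 < C) (hr0 : 0 ≤ r) (hr1 : r < 1) (h1 : ∀ k, μ.real (A k) ≤ C * q k)
    (h2 : ∀ j k, j < k → μ.real (A j ∩ A k) ≤ C * (q j + r ^ (k - j)) * q k) (n : ℕ) :
    ∫ ω, Nc A n ω ^ 2 ∂μ ≤ C * (∑ k ∈ range n, q k) ^ 2 +
      C * (2 / (1 - r) + 1) * ∑ k ∈ range n, q k := by
  induction n with
  | zero => simp [Nc]
  | succ n ih =>
    have e1 : ∀ ω, Nc A (n + 1) ω ^ 2 = Nc A n ω ^ 2 +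
        2 * (Nc A n ω * (A n).indicator (fun _ => (1 : ℝ)) ω) +
        1 * ((A n).indicator (fun _ => (1 : ℝ)) ω * (A n).indicator (fun _ => (1 : ℝ)) ω) := by
      intro ω
      unfold Nc
      rw [Finset.sum_range_succ]
      ring
    have i1 : Integrable (fun ω => Nc A n ω ^ 2) μ := (Nc_memLp hA n).integrable_sq
    have i2 : Integrable (fun ω => Nc A n ω * (A n).indicator (fun _ => (1 : ℝ)) ω) μ :=
      (Nc_memLp hA n).integrable_mul (ind_memLp (hA n))
    have i3 : Integrable (fun ω => (A n).indicator (fun _ => (1 : ℝ)) ω *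
        (A n).indicator (fun _ => (1 : ℝ)) ω) μ :=
      (ind_memLp (hA n)).integrable_mul (ind_memLp (hA n))
    simp_rw [e1]
    rw [int3 i1 i2 i3, int_ind2 (hA n) (hA n), Set.inter_self]
    have c1 : ∫ ω, Nc A n ω * (A n).indicator (fun _ => (1 : ℝ)) ω ∂μ ≤
        C * (∑ k ∈ range n, q k + 1 / (1 - r)) * q n := by
      have e2 : ∀ ω, Nc A n ω * (A n).indicator (fun _ => (1 : ℝ)) ω =
          ∑ k ∈ range n, (A k).indicator (fun _ => (1 : ℝ)) ω *
            (A n).indicator (fun _ => (1 : ℝ)) ω := by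
        intro ω
        unfold Nc
        rw [Finset.sum_mul]
      simp_rw [e2]
      have i4 : ∀ k ∈ range n, Integrable (fun ω => (A k).indicator (fun _ => (1 : ℝ)) ω *
          (A n).indicator (fun _ => (1 : ℝ)) ω) μ := fun k _ =>
        (ind_memLp (hA k)).integrable_mul (ind_memLp (hA n))
      rw [integral_finsetSum _ i4]
      calc ∑ k ∈ range n, ∫ ω, (A k).indicator (fun _ => (1 : ℝ)) ω *
            (A n).indicator (fun _ => (1 : ℝ)) ω ∂μ
          ≤ ∑ k ∈ range n, C * (q k + r ^ (n - k)) * q n := by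
            apply Finset.sum_le_sum
            intro k hk
            rw [int_ind2 (hA k) (hA n)]
            exact h2 k n (Finset.mem_range.1 hk)
        _ = C * (∑ k ∈ range n, q k + ∑ k ∈ range n, r ^ (n - k)) * q n := by
            rw [← Finset.sum_mul, ← Finset.mul_sum, Finset.sum_add_distrib]
        _ ≤ _ := by
            apply mul_le_mul_of_nonneg_right _ (hq n)
            apply mul_le_mul_of_nonneg_left _ hC.le
            have := geom_sum_le' hr0 hr1 n
            linarith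
    have c2 := h1 n
    rw [Finset.sum_range_succ]
    set S := ∑ k ∈ range n, q k
    have hS : 0 ≤ S := Finset.sum_nonneg fun k _ => hq k
    have hqn := hq n
    have h5 : C * (S + 1 / (1 - r)) * q n = C * S * q n + C * (1 / (1 - r)) * q n := by ring
    have h6 : C * (2 / (1 - r) + 1) * (S + q n) = C * (2 / (1 - r) + 1) * S +
      2 * (C * (1 / (1 - r)) * q n) + C * q n := by ring
    have h7 : C * (S + q n) ^ 2 = C * S ^ 2 + 2 * (C * S * q n) + C * q n ^ 2 := by ring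
    have h8 : 0 ≤ C * q n ^ 2 := by positivity
    rw [h5] at c1
    rw [h6, h7]
    linarith

theorem union_lower {A : ℕ → Set Ω} (hA : ∀ n, MeasurableSet (A n)) {q : ℕ → ℝ}
    (hq : ∀ k, 0 ≤ q k) {c C r : ℝ} (hc : 0 < c) (hC : 0 < C) (hr0 : 0 ≤ r) (hr1 : r < 1)
    (h0 : ∀ k, c * q k ≤ μ.real (A k)) (h1 : ∀ k, μ.real (A k) ≤ C * q k)
    (h2 : ∀ j k, j < k → μ.real (A j ∩ A k) ≤ C * (q j + r ^ (k - j)) * q k) (n : ℕ)
    (hS : 1 ≤ ∑ k ∈ range n, q k) :
    c ^ 2 / (C * (2 / (1 - r) + 2)) ≤ μ.real (⋃ k : ℕ, A k) := by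
  set D : ℝ := C * (2 / (1 - r) + 2) with hD
  have hr' : 0 < 1 - r := by linarith
  have hD0 : 0 < D := by positivity
  set S := ∑ k ∈ range n, q k with hSd
  set U : Set Ω := ⋃ k : ℕ, A k with hU
  have hUm : MeasurableSet U := MeasurableSet.iUnion hA
  have k1 := Nc_sq (μ := μ) hA hq hC hr0 hr1 h1 h2 n
  rw [← hSd] at k1
  have k2 : ∫ ω, Nc A n ω ^ 2 ∂μ ≤ D * S ^ 2 := by
    refine k1.trans ?_
    have e : D * S ^ 2 = C * S ^ 2 + C * (2 / (1 - r) + 1) * S ^ 2 := by rw [hD]; ring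
    rw [e]
    have h3 : S ≤ S ^ 2 := by nlinarith
    have h4 : 0 < C * (2 / (1 - r) + 1) := by positivity
    nlinarith
  have k3 : c * S ≤ ∫ ω, Nc A n ω ∂μ := by
    unfold Nc
    rw [integral_finsetSum _ fun k _ => (integrable_const (1 : ℝ)).indicator (hA k)]
    rw [hSd, Finset.mul_sum]
    apply Finset.sum_le_sum
    intro k _
    rw [int_ind (hA k)]
    exact h0 k
  have k4 : ∀ ω, Nc A n ω * U.indicator (fun _ => (1 : ℝ)) ω = Nc A n ω := by
    intro ω
    by_cases hω : ω ∈ U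
    · rw [Set.indicator_of_mem hω, mul_one]
    · have : Nc A n ω = 0 := by
        unfold Nc
        apply Finset.sum_eq_zero
        intro k _
        apply Set.indicator_of_notMem
        intro hk
        exact hω (Set.mem_iUnion.2 ⟨k, hk⟩)
      rw [this, zero_mul]
  set t : ℝ := D * S / c with ht
  have k5 : 0 ≤ ∫ ω, (Nc A n ω - t * U.indicator (fun _ => (1 : ℝ)) ω) ^ 2 ∂μ :=
    integral_nonneg fun ω => sq_nonneg _
  have e1 : ∀ ω, (Nc A n ω - t * U.indicator (fun _ => (1 : ℝ)) ω) ^ 2 = Nc A n ω ^ 2 +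
      (-2 * t) * Nc A n ω + t ^ 2 * U.indicator (fun _ => (1 : ℝ)) ω := by
    intro ω
    have h3 : U.indicator (fun _ => (1 : ℝ)) ω * U.indicator (fun _ => (1 : ℝ)) ω =
        U.indicator (fun _ => (1 : ℝ)) ω := by
      by_cases hω : ω ∈ U <;> simp [hω]
    calc _ = Nc A n ω ^ 2 - 2 * t * (Nc A n ω * U.indicator (fun _ => (1 : ℝ)) ω) +
          t ^ 2 * (U.indicator (fun _ => (1 : ℝ)) ω * U.indicator (fun _ => (1 : ℝ)) ω) := by ring
      _ = _ := by rw [k4, h3]; ring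
  simp_rw [e1] at k5
  rw [int3 (Nc_memLp hA n).integrable_sq ((Nc_memLp hA n).integrable (by norm_num))
    ((integrable_const (1 : ℝ)).indicator hUm), int_ind hUm] at k5
  have ht0 : 0 < t := by positivity
  have htc : t * c = D * S := by rw [ht]; field_simp
  have k6 : 0 ≤ D * S ^ 2 - 2 * (t * c) * S + t ^ 2 * μ.real U := by nlinarith
  rw [htc] at k6
  have k7 : D * S ^ 2 ≤ t ^ 2 * μ.real U := by nlinarith
  have k8 : t ^ 2 * c ^ 2 = D ^ 2 * S ^ 2 := by rw [← mul_pow, htc, mul_pow]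
  rw [div_le_iff₀ hD0]
  have hS0 : 0 < S := by linarith
  have k9 : D * S ^ 2 * c ^ 2 ≤ D ^ 2 * S ^ 2 * μ.real U := by
    calc D * S ^ 2 * c ^ 2 ≤ t ^ 2 * μ.real U * c ^ 2 :=
          mul_le_mul_of_nonneg_right k7 (by positivity)
      _ = (t ^ 2 * c ^ 2) * μ.real U := by ring
      _ = _ := by rw [k8]
  have k10 : (D * S ^ 2) * c ^ 2 ≤ (D * S ^ 2) * (μ.real U * D) := by nlinarith
  exact le_of_mul_le_mul_left k10 (by positivity)

/-- positive probability of infinitely many occurrences -/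
theorem limsup_pos {A : ℕ → Set Ω} (hA : ∀ n, MeasurableSet (A n)) {q : ℕ → ℝ}
    (hq : ∀ k, 0 ≤ q k) {c C r : ℝ} (hc : 0 < c) (hC : 0 < C) (hr0 : 0 ≤ r) (hr1 : r < 1) {k0 : ℕ}
    (h0 : ∀ k, k0 ≤ k → c * q k ≤ μ.real (A k)) (h1 : ∀ k, μ.real (A k) ≤ C * q k)
    (h2 : ∀ j k, j < k → μ.real (A j ∩ A k) ≤ C * (q j + r ^ (k - j)) * q k)
    (hns : ¬ Summable q) : μ {ω | ∃ᶠ k in atTop, ω ∈ A k} ≠ 0 := by
  set δ : ℝ := c ^ 2 / (C * (2 / (1 - r) + 2)) with hδ
  have hr' : 0 < 1 - r := by linarith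
  have hδ0 : 0 < δ := by positivity
  have key : ∀ m, k0 ≤ m → δ ≤ μ.real (⋃ k : ℕ, A (m + k)) := by
    intro m hm
    have hns' : ¬ Summable (fun k => q (m + k)) := by
      intro hs
      apply hns
      rw [← summable_nat_add_iff m]
      exact hs.congr fun k => by rw [add_comm]
    have ht := (not_summable_iff_tendsto_nat_atTop_of_nonneg (fun k => hq (m + k))).1 hns'
    obtain ⟨n, hn⟩ := (ht.eventually_ge_atTop 1).exists
    exact union_lower (μ := μ) (A := fun k => A (m + k)) (fun k => hA _) (fun k => hq _) hc hC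
      hr0 hr1 (fun k => h0 _ (by omega)) (fun k => h1 _) (fun j k hjk => by
        have := h2 (m + j) (m + k) (by omega)
        rwa [show m + k - (m + j) = k - j by omega] at this) n hn
  have e : {ω | ∃ᶠ k in atTop, ω ∈ A k} = ⋂ m : ℕ, ⋃ k : ℕ, A (k0 + m + k) := by
    ext ω
    simp only [Set.mem_ofPred_eq, Set.mem_iInter, Set.mem_iUnion, frequently_atTop]
    constructor
    · intro h m
      obtain ⟨b, hb, hb'⟩ := h (k0 + m)
      exact ⟨b - (k0 + m), by rwa [show k0 + m + (b - (k0 + m)) = b by omega]⟩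
    · intro h a
      obtain ⟨k, hk⟩ := h a
      exact ⟨k0 + a + k, by omega, hk⟩
  have hanti : Antitone (fun m : ℕ => ⋃ k : ℕ, A (k0 + m + k)) := by
    intro m m' hmm ω hω
    obtain ⟨k, hk⟩ := Set.mem_iUnion.1 hω
    exact Set.mem_iUnion.2 ⟨m' - m + k, by rwa [show k0 + m + (m' - m + k) = k0 + m' + k by omega]⟩
  have ht := tendsto_measure_iInter_atTop (μ := μ) (s := fun m : ℕ => ⋃ k : ℕ, A (k0 + m + k))
    (fun m => (MeasurableSet.iUnion fun k => hA _).nullMeasurableSet) hanti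
    ⟨0, measure_ne_top _ _⟩
  rw [e]
  intro hz
  rw [hz] at ht
  have h3 : ∀ m : ℕ, ENNReal.ofReal δ ≤ μ (⋃ k : ℕ, A (k0 + m + k)) := by
    intro m
    rw [← ofReal_measureReal (measure_ne_top _ _)]
    exact ENNReal.ofReal_le_ofReal (key (k0 + m) (by omega))
  have h4 := ge_of_tendsto' ht h3
  rw [nonpos_iff_eq_zero, ENNReal.ofReal_eq_zero] at h4
  linarith

end Pool.Agent.N931.AS
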