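import Pool.Agent.N931.AS.Cardy
import Pool.Agent.N931.AS.Kochen

/-!
Integral test for the lateral excursions of the exploration path.
-/

namespace Pool.Agent.N931.AS

open Pool.Agent.H988R2.Perc hiding X
open Pool.Agent.H31C Pool.Agent.H492E Pool.Agent.H984Q Finset MeasureTheory Filter Topology
open Pool.Agent.H863R4 Pool.Agent.H757R2.CardyLimit Pool.Agent.H980R4.Rate

theorem cardyF_bounds : ∃ c C : ℝ, 0 < c ∧ 0 < C ∧ ∀ x : ℝ, 0 < x → x < 1 →
    c * x ^ (1 / 3 : ℝ) ≤ cardyF x ∧ cardyF x ≤ C * x ^ (1 / 3 : ℝ) := by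
  obtain ⟨c, C, hc, hC, h⟩ := Pool.Agent.Y989.SD.m_CDY
  refine ⟨c, C, hc, hC, fun x h0 h1 => ?_⟩
  have e : cardyF x = Pool.Agent.Y989.SD.cardy x := by
    rw [cardyF_eq]; rfl
  rw [e]
  exact h x h0 h1

/-- the error term -/
theorem err_le {a b : ℕ} (ha : 1 ≤ a) (hab : a ≤ b) :
    60 * ((min a b : ℕ) : ℝ) ^ (-(2/3) : ℝ) * ((a:ℝ) + b) ^ (-(1/3) : ℝ) =
      60 / a * ((a : ℝ) / (a + b)) ^ (1 / 3 : ℝ) := by
  have pa : (1:ℝ) ≤ a := by exact_mod_cast ha
  have hb : (0:ℝ) ≤ b := Nat.cast_nonneg b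
  rw [min_eq_left hab, Real.div_rpow (by linarith) (by linarith), Real.rpow_neg (by linarith),
    Real.rpow_neg (by linarith)]
  have e : (a : ℝ) = (a : ℝ) ^ (2/3 : ℝ) * (a : ℝ) ^ (1/3 : ℝ) := by
    rw [← Real.rpow_add (by linarith)]; norm_num
  have h1 : (0 : ℝ) < (a : ℝ) ^ (2/3 : ℝ) := by positivity
  have h2 : (0 : ℝ) < (a : ℝ) ^ (1/3 : ℝ) := by positivity
  have h3 : (60 : ℝ) / a = 60 / ((a : ℝ) ^ (2/3 : ℝ) * (a : ℝ) ^ (1/3 : ℝ)) := by rw [← e]
  rw [h3]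
  have h4 : (0 : ℝ) < ((a : ℝ) + b) ^ (1/3 : ℝ) := by positivity
  field_simp

theorem rf_upper : ∃ C : ℝ, 0 < C ∧ ∀ a b : ℕ, 1 ≤ a → 1 ≤ b →
    perc.real (RightFirst a b) ≤ C * ((a : ℝ) / (a + b)) ^ (1 / 3 : ℝ) := by
  obtain ⟨c, C, hc, hC, h⟩ := cardyF_bounds
  refine ⟨C + 60 + 2, by positivity, fun a b ha hb => ?_⟩
  have pa : (1:ℝ) ≤ a := by exact_mod_cast ha
  have pb : (1:ℝ) ≤ b := by exact_mod_cast hb
  have hx0 : 0 < (a : ℝ) / (a + b) := by positivity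
  have hq0 : 0 ≤ ((a : ℝ) / (a + b)) ^ (1 / 3 : ℝ) := by positivity
  rcases le_total a b with hab | hab
  · have h1 := right_rate exact_cardy ha hb
    rw [err_le ha hab] at h1
    have h2 := (h ((a : ℝ) / (a + b)) hx0 (by rw [div_lt_one (by positivity)]; linarith)).2
    have h3 := (abs_le.1 h1).2
    have h4 : 60 / (a : ℝ) * ((a : ℝ) / (a + b)) ^ (1 / 3 : ℝ) ≤
        60 * ((a : ℝ) / (a + b)) ^ (1 / 3 : ℝ) := by
      apply mul_le_mul_of_nonneg_right _ hq0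
      rw [div_le_iff₀ (by linarith)]; linarith
    nlinarith
  · have hab' : (b : ℝ) ≤ a := by exact_mod_cast hab
    have h1 : (1 / 2 : ℝ) ≤ ((a : ℝ) / (a + b)) ^ (1 / 3 : ℝ) := by
      have h2 : (1 / 2 : ℝ) ≤ (a : ℝ) / (a + b) := by
        rw [le_div_iff₀ (by linarith)]; linarith
      have h3 : (a : ℝ) / (a + b) ≤ 1 := by rw [div_le_one (by linarith)]; linarith
      calc (1 / 2 : ℝ) ≤ (a : ℝ) / (a + b) := h2
        _ = ((a : ℝ) / (a + b)) ^ (1 : ℝ) := (Real.rpow_one _).symm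
        _ ≤ _ := Real.rpow_le_rpow_of_exponent_ge hx0 h3 (by norm_num)
    have h2 : perc.real (RightFirst a b) ≤ 1 := measureReal_le_one
    nlinarith

theorem rf_lower : ∃ (c : ℝ) (a0 : ℕ), 0 < c ∧ ∀ a b : ℕ, a0 ≤ a → 1 ≤ b →
    c * ((a : ℝ) / (a + b)) ^ (1 / 3 : ℝ) ≤ perc.real (RightFirst a b) := by
  obtain ⟨c, C, hc, hC, h⟩ := cardyF_bounds
  have key : ∀ a b : ℕ, max 1 ⌈120 / c⌉₊ ≤ a → a ≤ b →
      c / 2 * ((a : ℝ) / (a + b)) ^ (1 / 3 : ℝ) ≤ perc.real (RightFirst a b) := by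
    intro a b ha hab
    have ha1 : 1 ≤ a := (le_max_left _ _).trans ha
    have ha2 : 120 / c ≤ a := (Nat.le_ceil _).trans (by exact_mod_cast (le_max_right _ _).trans ha)
    have pa : (1:ℝ) ≤ a := by exact_mod_cast ha1
    have pb : (a:ℝ) ≤ b := by exact_mod_cast hab
    have hx0 : 0 < (a : ℝ) / (a + b) := by positivity
    have hq0 : 0 ≤ ((a : ℝ) / (a + b)) ^ (1 / 3 : ℝ) := by positivity
    have h1 := right_rate exact_cardy ha1 (ha1.trans hab)
    rw [err_le ha1 hab] at h1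
    have h2 := (h ((a : ℝ) / (a + b)) hx0 (by rw [div_lt_one (by positivity)]; linarith)).1
    have h3 := (abs_le.1 h1).1
    have h4 : 60 / (a : ℝ) ≤ c / 2 := by
      rw [div_le_iff₀ (by linarith)]
      rw [div_le_iff₀ hc] at ha2
      linarith
    have h5 := mul_le_mul_of_nonneg_right h4 hq0
    linarith
  refine ⟨c / 4, max 1 ⌈120 / c⌉₊, by positivity, fun a b ha hb => ?_⟩
  have ha1 : 1 ≤ a := (le_max_left _ _).trans ha
  have pa : (1:ℝ) ≤ a := by exact_mod_cast ha1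
  have pb : (1:ℝ) ≤ b := by exact_mod_cast hb
  have hx0 : 0 < (a : ℝ) / (a + b) := by positivity
  have hq0 : 0 ≤ ((a : ℝ) / (a + b)) ^ (1 / 3 : ℝ) := by positivity
  rcases le_total a b with hab | hab
  · have := key a b ha hab
    nlinarith
  · have h1 := key a a ha le_rfl
    have h2 : perc.real (RightFirst a a) ≤ perc.real (RightFirst a b) :=
      measureReal_mono (mono_right _ _ _ _ le_rfl hab)
    have h3 : (1 / 2 : ℝ) ≤ ((a : ℝ) / (a + a)) ^ (1 / 3 : ℝ) := by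
      have e : (a : ℝ) / (a + a) = 1 / 2 := by field_simp; ring
      rw [e]
      calc (1 / 2 : ℝ) = (1 / 2 : ℝ) ^ (1 : ℝ) := (Real.rpow_one _).symm
        _ ≤ _ := Real.rpow_le_rpow_of_exponent_ge (by norm_num) (by norm_num) (by norm_num)
    have h4 : ((a : ℝ) / (a + b)) ^ (1 / 3 : ℝ) ≤ 1 :=
      Real.rpow_le_one hx0.le (by rw [div_le_one (by linarith)]; linarith) (by norm_num)
    nlinarith

/-- `x ↦ x^(1/3)` is subadditive -/
theorem cbrt_add {x y : ℝ} (hx : 0 ≤ x) (hy : 0 ≤ y) :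
    (x + y) ^ (1 / 3 : ℝ) ≤ x ^ (1 / 3 : ℝ) + y ^ (1 / 3 : ℝ) :=
  Real.rpow_add_le_add_rpow hx hy (by norm_num) (by norm_num)

theorem freq_meas {A : ℕ → Set Conf} (hA : ∀ k, MeasurableSet (A k)) :
    MeasurableSet {ω | ∃ᶠ k in atTop, ω ∈ A k} := by
  have e : {ω | ∃ᶠ k in atTop, ω ∈ A k} = ⋂ m : ℕ, ⋃ k : ℕ, {ω | m ≤ k ∧ ω ∈ A k} := by
    ext ω
    simp only [Set.mem_ofPred_eq, Set.mem_iInter, Set.mem_iUnion, frequently_atTop]
  rw [e]
  exact MeasurableSet.iInter fun m => MeasurableSet.iUnion fun k =>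
    (MeasurableSet.const _).inter (hA k)

/-- the dyadic events: zero-one law -/
theorem cr_zero_one {b : ℕ → ℕ} (hb : ∀ k, 2 ^ k ≤ b k) (a : ℕ → ℕ) :
    perc {ω | ∃ᶠ k in atTop, ω ∈ CR (a k) (b k)} = 0 ∨
      perc {ω | ∃ᶠ k in atTop, ω ∈ CR (a k) (b k)} = 1 := by
  obtain ⟨C, β, hC, hβ, h⟩ := arm_plane
  have hmeas : MeasurableSet {ω | ∃ᶠ k in atTop, ω ∈ CR (a k) (b k)} :=
    freq_meas fun k => cr_meas _ _
  refine zero_one (Ed := fun n : ℕ => Ed (n : ℤ)) (fun m n hmn => Ed_mono (by exact_mod_cast hmn))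
    Ed_cover (fun n => ⟨_, hmeas, ?_⟩)
  -- only finitely many differences
  have hbc : ∀ᵐ ω ∂perc, ∀ᶠ k in atTop,
      ω ∉ CR (a k) (b k) \ res (Ed (n : ℤ))ᶜ ⁻¹' CR (a k) (b k) := by
    apply ae_eventually_notMem
    -- summability of the probabilities
    have hs : Summable (fun k : ℕ => C * (2 * ((n : ℝ) + 1) / 2 ^ k) ^ β + if k ≤ 4 * n + 4 then 1 else 0) := by
      apply Summable.add
      · apply Summable.mul_left
        have e : ∀ k : ℕ, (2 * ((n : ℝ) + 1) / 2 ^ k) ^ β =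
            (2 * ((n : ℝ) + 1)) ^ β * (((2 : ℝ) ^ β)⁻¹) ^ k := by
          intro k
          rw [Real.div_rpow (by positivity) (by positivity), div_eq_mul_inv, inv_pow]
          congr 2
          rw [← Real.rpow_natCast, ← Real.rpow_natCast, ← Real.rpow_mul (by norm_num),
            ← Real.rpow_mul (by norm_num), mul_comm]
        simp_rw [e]
        apply Summable.mul_left
        apply summable_geometric_of_lt_one (by positivity)
        apply inv_lt_one_of_one_lt₀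
        exact Real.one_lt_rpow (by norm_num) hβ
      · apply summable_of_hasFiniteSupport
        apply (Finset.range (4 * n + 5)).finite_toSet.subset
        intro k hk
        rw [Function.mem_support] at hk
        rw [Finset.coe_range, Set.mem_Iio]
        by_contra hc
        exact hk (if_neg (by omega))
    refine ne_top_of_le_ne_top hs.tsum_ofReal_ne_top (ENNReal.tsum_le_tsum fun k => ?_)
    rw [← ofReal_measureReal (measure_ne_top _ _)]
    apply ENNReal.ofReal_le_ofReal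
    by_cases hk : k ≤ 4 * n + 4
    · rw [if_pos hk]
      have h1 : perc.real (CR (a k) (b k) \ res (Ed (n : ℤ))ᶜ ⁻¹' CR (a k) (b k)) ≤ 1 :=
        measureReal_le_one
      have h2 : 0 ≤ C * (2 * ((n : ℝ) + 1) / 2 ^ k) ^ β := by positivity
      linarith
    · rw [if_neg hk, add_zero]
      push Not at hk
      have hk2 : k < 2 ^ k := Nat.lt_two_pow_self
      have hbk := hb k
      set M : ℤ := ((b k : ℤ) + 2) / 2 with hM
      have hM1 : 2 * M ≤ b k + 2 := by omega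
      have hM2 : (b k : ℤ) + 1 ≤ 2 * M := by omega
      have hsub : CR (a k) (b k) \ res (Ed (n : ℤ))ᶜ ⁻¹' CR (a k) (b k) ⊆
          AR (fun _ => True) (0, 0) ((n : ℤ) + 1) M := by
        intro ω hω
        obtain ⟨u, w, h1, h2, h3, h4⟩ := trunc_in (ρ := (n : ℤ)) hM1 hω
        refine ⟨u, w, ?_, h2, h3, h4⟩
        unfold bx at h1 ⊢; simp only at h1 ⊢; omega
      refine (measureReal_mono hsub).trans ?_
      refine (h (0, 0) (n + 1) M (by omega) (by omega)).trans ?_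
      apply mul_le_mul_of_nonneg_left _ hC.le
      have hM3 : ((2 : ℝ) ^ k) ≤ 2 * M := by
        have h5 : ((2 ^ k : ℕ) : ℤ) ≤ 2 * M := by omega
        have h6 : (((2 ^ k : ℕ) : ℤ) : ℝ) ≤ ((2 * M : ℤ) : ℝ) := by exact_mod_cast h5
        push_cast at h6
        exact h6
      have hM4 : (0 : ℝ) < M := by
        have : (0 : ℝ) < (2 : ℝ) ^ k := by positivity
        linarith
      apply Real.rpow_le_rpow (by positivity) _ hβ.le
      push_cast
      rw [div_le_div_iff₀ hM4 (by positivity)]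
      have hn0 : (0 : ℝ) ≤ (n : ℝ) + 1 := by positivity
      nlinarith
  have hset : ∀ᵐ ω ∂perc, (ω ∈ {ω | ∃ᶠ k in atTop, ω ∈ CR (a k) (b k)}) ↔
      ω ∈ res (Ed (n : ℤ))ᶜ ⁻¹' {ω | ∃ᶠ k in atTop, ω ∈ CR (a k) (b k)} := by
    filter_upwards [hbc] with ω hω
    constructor
    · intro h1
      have h2 : ∃ᶠ k in atTop, ω ∈ CR (a k) (b k) := h1
      exact (h2.and_eventually hω).mono fun k hk => by
        by_contra hc
        exact hk.2 ⟨hk.1, hc⟩
    · intro h1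
      have h2 : ∃ᶠ k in atTop, res (Ed (n : ℤ))ᶜ ω ∈ CR (a k) (b k) := h1
      exact h2.mono fun k hk => cr_res hk
  exact Filter.eventuallyEq_set.2 hset

/-- the dyadic test: divergence -/
theorem cr_io {b : ℕ → ℕ} (hodd : ∀ k, Odd (b k)) (hb : ∀ k, 2 ^ k ≤ b k)
    (hns : ¬ Summable fun k : ℕ => (((2 ^ (k + 1) - 1 : ℕ) : ℝ) /
      (((2 ^ (k + 1) - 1 : ℕ) : ℝ) + b k)) ^ (1 / 3 : ℝ)) :
    ∀ᵐ ω ∂perc, ∃ᶠ k in atTop, ω ∈ CR (2 ^ (k + 1) - 1) (b k) := by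
  obtain ⟨C1, hC1, hup⟩ := rf_upper
  obtain ⟨C2, hC2, hts⟩ := two_scale
  obtain ⟨c, a0, hc, hlow⟩ := rf_lower
  have hp2 : ∀ k : ℕ, 1 ≤ 2 ^ k := fun k => Nat.one_le_two_pow
  have hodda : ∀ k : ℕ, Odd (2 ^ (k + 1) - 1) := by
    intro k
    rw [Nat.odd_iff, pow_succ]
    have := hp2 k
    omega
  have ha1 : ∀ k : ℕ, 1 ≤ 2 ^ (k + 1) - 1 := fun k => (hodda k).pos
  set A : ℕ → Set Conf := fun k => CR (2 ^ (k + 1) - 1) (b k) with hA
  set q : ℕ → ℝ := fun k => (((2 ^ (k + 1) - 1 : ℕ) : ℝ) /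
      (((2 ^ (k + 1) - 1 : ℕ) : ℝ) + b k)) ^ (1 / 3 : ℝ) with hq
  have hq0 : ∀ k, 0 ≤ q k := fun k => by rw [hq]; positivity
  have hne : perc {ω | ∃ᶠ k in atTop, ω ∈ A k} ≠ 0 := by
    refine limsup_pos (μ := perc) (A := A) (q := q) (c := c) (C := C1 + C2)
      (r := (1 / 2 : ℝ) ^ (1 / 3 : ℝ)) (k0 := a0) (fun k => cr_meas _ _) hq0 hc (by positivity)
      (by positivity) (Real.rpow_lt_one (by norm_num) (by norm_num) (by norm_num)) ?_ ?_ ?_ hns
    · intro k hk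
      rw [hA]
      simp only
      rw [cr_prob (hodda k) (hodd k)]
      apply hlow _ _ _ (hodd k).pos
      have h1 : k < 2 ^ k := Nat.lt_two_pow_self
      rw [pow_succ]; omega
    · intro k
      rw [hA]
      simp only
      rw [cr_prob (hodda k) (hodd k)]
      refine (hup _ _ (ha1 k) (hodd k).pos).trans ?_
      have := hq0 k
      nlinarith
    · intro j k hjk
      have h2a : 2 * (2 ^ (j + 1) - 1) ≤ 2 ^ (k + 1) - 1 := by
        have h1 : 2 ^ (j + 1 + 1) ≤ 2 ^ (k + 1) := Nat.pow_le_pow_right (by norm_num) (by omega)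
        have h2 := hp2 (j + 1)
        have h3 : 2 ^ (j + 1 + 1) = 2 * 2 ^ (j + 1) := by rw [pow_succ]; ring
        omega
      refine (hts _ (b j) _ (b k) (ha1 j) h2a).trans ?_
      have h3 : (((2 ^ (j + 1) - 1 : ℕ) : ℝ) / ((2 ^ (j + 1) - 1 : ℕ) + b j) +
          ((2 ^ (j + 1) - 1 : ℕ) : ℝ) / ((2 ^ (k + 1) - 1 : ℕ) : ℝ)) ^ (1 / 3 : ℝ) ≤
          q j + ((1 / 2 : ℝ) ^ (1 / 3 : ℝ)) ^ (k - j) := by
        refine (cbrt_add (by positivity) (by positivity)).trans ?_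
        apply add_le_add le_rfl
        have e : ((1 / 2 : ℝ) ^ (1 / 3 : ℝ)) ^ (k - j) = ((1 / 2 : ℝ) ^ (k - j)) ^ (1 / 3 : ℝ) := by
          rw [← Real.rpow_natCast, ← Real.rpow_natCast, ← Real.rpow_mul (by norm_num),
            ← Real.rpow_mul (by norm_num), mul_comm]
        rw [e]
        apply Real.rpow_le_rpow (by positivity) _ (by norm_num)
        have hk1 : (0 : ℝ) < ((2 ^ (k + 1) - 1 : ℕ) : ℝ) := by exact_mod_cast ha1 k
        rw [div_le_iff₀ hk1]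
        have n1 : ((2 ^ (k + 1) - 1 : ℕ) : ℝ) = 2 ^ (k + 1) - 1 := by
          rw [Nat.cast_sub (hp2 _)]; push_cast; ring
        have n2 : ((2 ^ (j + 1) - 1 : ℕ) : ℝ) = 2 ^ (j + 1) - 1 := by
          rw [Nat.cast_sub (hp2 _)]; push_cast; ring
        rw [n1, n2]
        have n3 : (1 / 2 : ℝ) ^ (k - j) * 2 ^ (k + 1) = 2 ^ (j + 1) := by
          have : k + 1 = (k - j) + (j + 1) := by omega
          rw [this, pow_add, ← mul_assoc, ← mul_pow]
          norm_num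
        have n4 : (1 / 2 : ℝ) ^ (k - j) ≤ 1 := pow_le_one₀ (by norm_num) (by norm_num)
        nlinarith
      have h4 := hq0 k
      have h5 := hq0 j
      have h6 : 0 ≤ ((1 / 2 : ℝ) ^ (1 / 3 : ℝ)) ^ (k - j) := by positivity
      calc _ ≤ C2 * (q j + ((1 / 2 : ℝ) ^ (1 / 3 : ℝ)) ^ (k - j)) * q k :=
            mul_le_mul_of_nonneg_right (mul_le_mul_of_nonneg_left h3 hC2.le) h4
        _ ≤ (C1 + C2) * (q j + ((1 / 2 : ℝ) ^ (1 / 3 : ℝ)) ^ (k - j)) * q k := by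
            apply mul_le_mul_of_nonneg_right _ h4
            apply mul_le_mul_of_nonneg_right (by linarith) (by positivity)
  have h1 : perc {ω | ∃ᶠ k in atTop, ω ∈ A k} = 1 :=
    (cr_zero_one hb (fun k => 2 ^ (k + 1) - 1)).resolve_left hne
  have hmeas : MeasurableSet {ω | ∃ᶠ k in atTop, ω ∈ A k} := freq_meas fun k => cr_meas _ _
  exact (prob_compl_eq_zero_iff hmeas).2 h1

end Pool.Agent.N931.AS
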