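import Pool.Agent.N931.AS.Arms

/-!
Truncation of the crossing event at a scale `ρ`, from outside and from inside.
-/

namespace Pool.Agent.N931.AS

open Pool.Agent.H988R2.Perc hiding X
open Pool.Agent.H31C Pool.Agent.H492E Pool.Agent.H984Q Finset MeasureTheory

/-- the endpoints of an edge -/
def e0 (e : Edge) : ℤ × ℤ := (e.1, e.2.1)
/-- the endpoints of an edge -/
def e1 (e : Edge) : ℤ × ℤ := if e.2.2 then (e.1, e.2.1 + 1) else (e.1 + 1, e.2.1)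

/-- the edges of the box of radius `ρ` -/
def Ed (ρ : ℤ) : Set Edge := {e | bx (0, 0) ρ (e0 e) ∧ bx (0, 0) ρ (e1 e)}

theorem Ed_mono {ρ ρ' : ℤ} (h : ρ ≤ ρ') : Ed ρ ⊆ Ed ρ' := by
  rintro e ⟨h1, h2⟩
  unfold bx at h1 h2
  refine ⟨?_, ?_⟩
  · unfold bx; omega
  · unfold bx; omega

theorem Ed_cover (e : Edge) : ∃ n : ℕ, e ∈ Ed n := by
  refine ⟨(|e.1| + |e.2.1| + 1).toNat, ?_⟩
  have h0 : (0 : ℤ) ≤ |e.1| + |e.2.1| + 1 := by positivity
  have h1 := abs_nonneg e.1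
  have h2 := abs_nonneg e.2.1
  have h3 := neg_abs_le e.1
  have h4 := neg_abs_le e.2.1
  have h5 := le_abs_self e.1
  have h6 := le_abs_self e.2.1
  show bx (0, 0) _ (e0 e) ∧ bx (0, 0) _ (e1 e)
  rw [Int.toNat_of_nonneg h0]
  obtain ⟨u, v, c⟩ := e
  simp only at h1 h2 h3 h4 h5 h6 ⊢
  unfold bx e0 e1
  simp only
  refine ⟨by omega, ?_⟩
  cases c
  · simp only [Bool.false_eq_true, if_false]; omega
  · simp only [if_true]; omega

/-- an open step is open for the restriction if its edge is kept -/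
theorem open_res {S : Set Edge} {ω : Conf} {x y : ℤ × ℤ} (h : OpenAdj ω x y)
    (hS : ∀ e, (e0 e = x ∧ e1 e = y) ∨ (e0 e = y ∧ e1 e = x) → e ∈ S) : OpenAdj (res S ω) x y := by
  rcases h with ⟨h1, h2⟩ | ⟨h1, h2⟩ | ⟨h1, h2⟩ | ⟨h1, h2⟩
  · refine Or.inl ⟨h1, res_true.2 ⟨hS _ (Or.inl ⟨?_, ?_⟩), h2⟩⟩
    · rfl
    · rw [h1]; rfl
  · refine Or.inr (Or.inl ⟨h1, res_true.2 ⟨hS _ (Or.inr ⟨?_, ?_⟩), h2⟩⟩)
    · rfl
    · rw [h1]; rfl
  · refine Or.inr (Or.inr (Or.inl ⟨h1, res_true.2 ⟨hS _ (Or.inl ⟨?_, ?_⟩), h2⟩⟩))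
    · rfl
    · rw [h1]; rfl
  · refine Or.inr (Or.inr (Or.inr ⟨h1, res_true.2 ⟨hS _ (Or.inr ⟨?_, ?_⟩), h2⟩⟩))
    · rfl
    · rw [h1]; rfl

theorem open_in {ρ : ℤ} {ω : Conf} {x y : ℤ × ℤ} (h : OpenAdj ω x y) (hx : bx (0, 0) ρ x)
    (hy : bx (0, 0) ρ y) : OpenAdj (res (Ed ρ) ω) x y :=
  open_res h fun e he => by
    rcases he with ⟨h1, h2⟩ | ⟨h1, h2⟩
    · exact ⟨h1 ▸ hx, h2 ▸ hy⟩
    · exact ⟨h1 ▸ hy, h2 ▸ hx⟩

theorem open_out {ρ : ℤ} {ω : Conf} {x y : ℤ × ℤ} (h : OpenAdj ω x y)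
    (hx : ¬ bx (0, 0) ρ x) : OpenAdj (res (Ed ρ)ᶜ ω) x y :=
  open_res h fun e he => by
    rintro ⟨h3, h4⟩
    rcases he with ⟨h1, h2⟩ | ⟨h1, h2⟩
    · exact hx (h1 ▸ h3)
    · exact hx (h2 ▸ h4)

theorem sa_symm {a b : ℕ} {ω : Conf} (x y : ℤ × ℤ) (h : SA a b ω x y) : SA a b ω y x := by
  obtain ⟨h1, h2, h3, h4, h5, h6⟩ := h
  refine ⟨openAdj_symm h1, h4, h5, h2, h3, ?_⟩
  unfold Cut at h6 ⊢
  omega

/-- a path which starts at the left bank passes below the tip -/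
theorem below {a b : ℕ} {ω : Conf} {x y : ℤ × ℤ} (h1 : x.1 = x.2) (h2 : 0 ≤ x.1)
    (h3 : y.1 - y.2 = (b : ℤ) + 1) (h4 : Relation.ReflTransGen (SA a b ω) x y) :
    ∃ z : ℤ × ℤ, z.1 + z.2 = 0 ∧ -(a : ℤ) ≤ z.1 - z.2 ∧ z.1 - z.2 ≤ 0 ∧
      Relation.ReflTransGen (SA a b ω) x z ∧ Relation.ReflTransGen (SA a b ω) z y := by
  have key : ∀ w, Relation.ReflTransGen (SA a b ω) x w →
      (∃ z : ℤ × ℤ, z.1 + z.2 = 0 ∧ -(a : ℤ) ≤ z.1 - z.2 ∧ z.1 - z.2 ≤ 0 ∧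
        Relation.ReflTransGen (SA a b ω) x z) ∨ (w.1 - w.2 ≤ 0 ∧ 0 < w.1 + w.2) := by
    intro w hw
    induction hw with
    | refl =>
      rcases eq_or_lt_of_le h2 with h | h
      · exact Or.inl ⟨x, by omega, by omega, by omega, Relation.ReflTransGen.refl⟩
      · exact Or.inr ⟨by omega, by omega⟩
    | @tail p q hp hpq ih =>
      rcases ih with h | ⟨h5, h6⟩
      · exact Or.inl h
      · obtain ⟨k1, k2, k3, k4, k5, k6⟩ := hpq
        have hc := openAdj_col k1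
        unfold Cut at k6
        by_cases hq : q.1 - q.2 ≤ 0
        · by_cases hq' : q.1 + q.2 = 0
          · refine Or.inl ⟨q, hq', by omega, hq, hp.tail ⟨k1, k2, k3, k4, k5, ?_⟩⟩
            unfold Cut; omega
          · exact Or.inr ⟨hq, by omega⟩
        · exfalso; omega
  rcases key y h4 with ⟨z, k1, k2, k3, k4⟩ | ⟨h5, -⟩
  · exact ⟨z, k1, k2, k3, k4, (rtg_symm sa_symm k4).trans h4⟩
  · exfalso
    have : (0 : ℤ) ≤ b := Int.natCast_nonneg b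
    omega

theorem sa_oh {a b : ℕ} {ω : Conf} {x y : ℤ × ℤ} (h : Relation.ReflTransGen (SA a b ω) x y) :
    Relation.ReflTransGen (OH (fun _ => True) ω) x y :=
  rtg_mono (fun _ _ h => ⟨h.1, trivial, trivial⟩) h

theorem cr_mono_conf {a b : ℕ} {ω ω' : Conf} (h : ∀ e, ω e = true → ω' e = true)
    (hω : ω ∈ CR a b) : ω' ∈ CR a b := by
  obtain ⟨x, y, h1, h2, h3, h4⟩ := hω
  exact ⟨x, y, h1, h2, h3, rtg_mono (fun p q hpq => ⟨openAdj_mono h hpq.1, hpq.2⟩) h4⟩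

theorem cr_res {a b : ℕ} {S : Set Edge} : res S ⁻¹' CR a b ⊆ CR a b :=
  fun _ hω => cr_mono_conf (fun _ => res_le) hω

theorem ar_res {H : ℤ × ℤ → Prop} {v : ℤ × ℤ} {r R : ℤ} {S : Set Edge} :
    res S ⁻¹' AR H v r R ⊆ AR H v r R :=
  fun _ hω => ar_mono (fun _ => res_le) hω

/-- outer truncation -/
theorem trunc_out {a b : ℕ} {ρ : ℤ} :
    CR a b \ res (Ed ρ) ⁻¹' CR a b ⊆ AR (fun _ => True) (0, 0) a (ρ + 1) := by
  rintro ω ⟨⟨x, y, h1, h2, h3, h4⟩, hn⟩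
  obtain ⟨z, k1, k2, k3, k4, k5⟩ := below h1 h2 h3 h4
  by_cases hc : ∃ w, Relation.ReflTransGen (SA a b ω) x w ∧ ¬ bx (0, 0) ρ w
  · obtain ⟨w, hw, hw'⟩ := hc
    refine ⟨z, w, ?_, ?_, trivial, sa_oh ((rtg_symm sa_symm k4).trans hw)⟩
    · unfold bx; simp only; omega
    · rw [add_sub_cancel_right]; exact hw'
  · exfalso
    apply hn
    push Not at hc
    refine ⟨x, y, h1, h2, h3, ?_⟩
    have key : ∀ w, Relation.ReflTransGen (SA a b ω) x w →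
        Relation.ReflTransGen (SA a b (res (Ed ρ) ω)) x w := by
      intro w hw
      induction hw with
      | refl => exact Relation.ReflTransGen.refl
      | @tail p q hp hpq ih =>
        exact ih.tail ⟨open_in hpq.1 (hc p hp) (hc q (hp.tail hpq)), hpq.2⟩
    exact key y h4

/-- inner truncation -/
theorem trunc_in {a b : ℕ} {ρ M : ℤ} (hM : 2 * M ≤ b + 2) :
    CR a b \ res (Ed ρ)ᶜ ⁻¹' CR a b ⊆ AR (fun _ => True) (0, 0) ρ M := by
  rintro ω ⟨⟨x, y, h1, h2, h3, h4⟩, hn⟩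
  by_cases hc : ∃ w, Relation.ReflTransGen (SA a b ω) x w ∧ bx (0, 0) ρ w
  · obtain ⟨w, hw, hw'⟩ := hc
    refine ⟨w, y, hw', ?_, trivial, sa_oh ((rtg_symm sa_symm hw).trans h4)⟩
    unfold bx; simp only; omega
  · exfalso
    apply hn
    push Not at hc
    refine ⟨x, y, h1, h2, h3, ?_⟩
    have key : ∀ w, Relation.ReflTransGen (SA a b ω) x w →
        Relation.ReflTransGen (SA a b (res (Ed ρ)ᶜ ω)) x w := by
      intro w hw
      induction hw with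
      | refl => exact Relation.ReflTransGen.refl
      | @tail p q hp hpq ih =>
        exact ih.tail ⟨open_out hpq.1 (hc p hp), hpq.2⟩
    exact key y h4

theorem sa_hp {a b : ℕ} {ω : Conf} {x y : ℤ × ℤ} (h : Relation.ReflTransGen (SA a b ω) x y) :
    Relation.ReflTransGen (OH (HP a) ω) x y :=
  rtg_mono (fun _ _ h => ⟨h.1, h.2.1, h.2.2.2.1⟩) h

/-- the half-plane arm inside -/
theorem arm_in {a b : ℕ} {ρ M : ℤ} (hM : 2 * M ≤ a + b + 2) (hρ : M + a ≤ ρ) :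
    CR a b ⊆ res (Ed ρ) ⁻¹' AR (HP a) (-(a : ℤ), 0) a M := by
  rintro ω ⟨x, y, h1, h2, h3, h4⟩
  obtain ⟨z, k1, k2, k3, k4, k5⟩ := below h1 h2 h3 h4
  obtain ⟨w, hw, hw'⟩ := first_visit' (r := OH (HP a) ω) (r' := OH (HP a) (res (Ed ρ) ω))
    (P := fun w => ¬ bx (-(a : ℤ), 0) (M - 1) w) (by
      intro p q hpq hp
      have hp' : bx (-(a : ℤ), 0) (M - 1) p := by by_contra hc; exact hp hc
      have hn := openAdj_near hpq.1
      refine ⟨open_in hpq.1 ?_ ?_, hpq.2⟩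
      · unfold bx at hp' ⊢; simp only at hp' ⊢; omega
      · unfold bx at hp' ⊢; simp only at hp' ⊢; omega) (sa_hp k5) (by
      unfold bx; simp only; omega)
  refine ⟨z, w, ?_, hw, k2, hw'⟩
  unfold bx; simp only; omega

/-- the half-plane arm outside -/
theorem arm_out {a b : ℕ} {ρ M : ℤ} (hM : 2 * M ≤ a + b + 2) (hρ : 0 ≤ ρ) :
    CR a b ⊆ res (Ed ρ)ᶜ ⁻¹' AR (HP a) (-(a : ℤ), 0) (ρ + a) M := by
  rintro ω ⟨x, y, h1, h2, h3, h4⟩
  obtain ⟨z, k1, k2, k3, k4, k5⟩ := below h1 h2 h3 h4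
  obtain ⟨w, hw, hw'⟩ := first_visit' (r := OH (HP a) ω) (r' := OH (HP a) (res (Ed ρ)ᶜ ω))
    (P := fun w => bx (-(a : ℤ), 0) (ρ + a) w) (by
      intro p q hpq hp
      refine ⟨open_out hpq.1 ?_, hpq.2⟩
      intro hp'
      apply hp
      unfold bx at hp' ⊢; simp only at hp' ⊢; omega) (sa_hp (rtg_symm sa_symm k5)) (by
      unfold bx; simp only; omega)
  have hsymm : ∀ p q, OH (HP a) (res (Ed ρ)ᶜ ω) p q → OH (HP a) (res (Ed ρ)ᶜ ω) q p :=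
    fun p q h => ⟨openAdj_symm h.1, h.2.2, h.2.1⟩
  have hwH : HP a w := by
    rcases Relation.ReflTransGen.cases_tail hw' with h | ⟨c, -, h⟩
    · rw [← h] at h3
      have : (0 : ℤ) ≤ b := Int.natCast_nonneg b
      unfold HP; omega
    · exact h.2.2
  refine ⟨w, y, hw, ?_, hwH, rtg_symm hsymm hw'⟩
  unfold bx; simp only; omega

end Pool.Agent.N931.AS
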